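import Mathlib

/-!
# A combinatorial type of polyhedral torus whose every realization has a convex vertex of valence 4

The type `T` has 11 vertices and 11 faces. Vertex `0` (the apex) lies on the four faces
`[0,3,5,1]`, `[0,1,7,4]`, `[0,4,8,2]`, `[0,2,6,3]`, and each of these shares an edge with the
hexagonal face `[6,2,8,7,1,5]`, which does not contain the apex. In every realization the apex is
off the plane of the hexagon (otherwise all vertices would be coplanar, which is impossible for a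
closed surface), and then the planes through the apex and the sides of the hexagon support the
surface at the apex, so that the vertex figure of the apex is a convex quadrangle.
-/

namespace Pool.Agent.Results.MP_ca7516_co.ForcedConvexVertexTorus

open Set

/-- Euclidean 3-space. -/
abbrev E3 := EuclideanSpace ℝ (Fin 3)

/-! ### Combinatorial types -/

/-- The sides of a cyclic word `x₀ x₁ … x_{k-1}`: the pairs `(x₀,x₁), …, (x_{k-1},x₀)`. -/
def sides {α : Type*} (l : List α) : List (α × α) := l.zip (l.rotate 1)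

/-- A combinatorial 2-complex: vertices `Fin n`, faces `Fin m`, the boundary of face `f` being the
cyclic word `K f`. -/
abbrev Complex (n m : ℕ) := Fin m → List (Fin n)

variable {n m : ℕ}

/-- `f` has the directed side `x → y`. -/
def Side (K : Complex n m) (f : Fin m) (x y : Fin n) : Prop := (x, y) ∈ sides (K f)

instance (K : Complex n m) (f : Fin m) (x y : Fin n) : Decidable (Side K f x y) := by
  unfold Side; infer_instance

/-- `x` and `y` are joined by an edge. -/
def Adj (K : Complex n m) (x y : Fin n) : Prop := ∃ f, Side K f x y ∨ Side K f y x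

instance (K : Complex n m) (x y : Fin n) : Decidable (Adj K x y) := by
  unfold Adj; infer_instance

/-- The faces `f` and `g` share no vertex, or exactly one vertex, or exactly the two ends of a
common edge. -/
def MeetProperly (K : Complex n m) (f g : Fin m) : Prop :=
  (∀ x, ¬ (x ∈ K f ∧ x ∈ K g)) ∨
    (∃ x, ∀ z, (z ∈ K f ∧ z ∈ K g) ↔ z = x) ∨
    (∃ x y, Side K f x y ∧ Side K g y x ∧ ∀ z, (z ∈ K f ∧ z ∈ K g) ↔ (z = x ∨ z = y))

instance (K : Complex n m) (f g : Fin m) : Decidable (MeetProperly K f g) := by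
  unfold MeetProperly; infer_instance

/-- The complex is a connected closed oriented surface (the words of the faces are coherently
oriented) and a polyhedral map: two distinct faces share nothing, one vertex, or one edge. -/
structure IsPolyhedralMap (K : Complex n m) : Prop where
  nonempty : 0 < m
  nodup : ∀ f, (K f).Nodup
  three_le : ∀ f, 3 ≤ (K f).length
  covers : ∀ x, ∃ f, x ∈ K f
  /-- a directed side lies in only one face -/
  side_unique : ∀ f g x y, Side K f x y → Side K g x y → f = g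
  /-- and the reversed side lies in some (hence exactly one) face -/
  side_opp : ∀ f x y, Side K f x y → ∃ g, Side K g y x
  /-- two distinct faces share no vertex, or one vertex, or exactly the ends of a common edge -/
  meet : ∀ f g, f ≠ g → MeetProperly K f g
  /-- the faces around a vertex form one cycle -/
  link : ∀ x f g, x ∈ K f → x ∈ K g →
    Relation.ReflTransGen (fun f' g' => ∃ y, Side K f' x y ∧ Side K g' y x) f g
  connected : ∀ f g, Relation.ReflTransGen (fun f' g' => ∃ x y, Side K f' x y ∧ Side K g' y x) f g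

/-- The number of edges. -/
def numEdges (K : Complex n m) : ℕ :=
  (Finset.univ.filter (fun e : Fin n × Fin n => e.1 < e.2 ∧ Adj K e.1 e.2)).card

/-- The number of edges incident to `x`. -/
def valence (K : Complex n m) (x : Fin n) : ℕ :=
  (Finset.univ.filter (fun y => Adj K x y)).card

/-! ### Realizations in 3-space -/

/-- The cyclic word `l` lists, in cyclic order, the vertices of a planar convex polygon: its points
are distinct, lie in a plane, and for each side there is a half-space whose boundary contains the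
two ends of the side and whose interior contains all the other points. -/
def IsConvexPolygon (l : List E3) : Prop :=
  3 ≤ l.length ∧ l.Nodup ∧
  (∃ e : E3 →ᵃ[ℝ] ℝ, e.linear ≠ 0 ∧ ∀ x ∈ l, e x = 0) ∧
  ∀ s ∈ sides l, ∃ h : E3 →ᵃ[ℝ] ℝ, h s.1 = 0 ∧ h s.2 = 0 ∧
    ∀ x ∈ l, x ≠ s.1 → x ≠ s.2 → 0 < h x

/-- The face `f` as a subset of space. -/
def face (K : Complex n m) (p : Fin n → E3) (f : Fin m) : Set E3 :=
  convexHull ℝ (p '' {x | x ∈ K f})

/-- `p` places the vertices so that the faces become planar convex polygons with the prescribed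
cyclic order of vertices, two distinct faces meeting exactly in the vertex or edge which they share
combinatorially (or not at all). -/
structure IsRealization (K : Complex n m) (p : Fin n → E3) : Prop where
  injective : Function.Injective p
  polygon : ∀ f, IsConvexPolygon ((K f).map p)
  meet : ∀ f g, f ≠ g → face K p f ∩ face K p g = convexHull ℝ (p '' {x | x ∈ K f ∧ x ∈ K g})

/-- The plane `h = 0` strictly separates the vertex `x` from all its neighbours. -/
def Separates (K : Complex n m) (p : Fin n → E3) (x : Fin n) (h : E3 →ᵃ[ℝ] ℝ) : Prop :=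
  h (p x) < 0 ∧ ∀ y, Adj K x y → 0 < h (p y)

/-- The section of the union of the faces containing `x` by the plane `h = 0`. -/
def vertexFigure (K : Complex n m) (p : Fin n → E3) (x : Fin n) (h : E3 →ᵃ[ℝ] ℝ) : Set E3 :=
  {z | h z = 0} ∩ ⋃ f ∈ {f | x ∈ K f}, face K p f

/-- `S` is the boundary of a planar convex polygon. -/
def IsConvexClosedPolygon (S : Set E3) : Prop :=
  ∃ l : List E3, IsConvexPolygon l ∧ S = ⋃ s ∈ {s | s ∈ sides l}, segment ℝ s.1 s.2

/-- `x` is a convex vertex: it has a vertex figure, and the vertex figure (cut out by any plane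
strictly separating `x` from its neighbours) is a convex polygon. -/
def IsConvexVertex (K : Complex n m) (p : Fin n → E3) (x : Fin n) : Prop :=
  (∃ h, Separates K p x h) ∧ ∀ h, Separates K p x h → IsConvexClosedPolygon (vertexFigure K p x h)

/-- two adjacent faces never lie in a common plane -/
def NoCoplanarNeighbours (K : Complex n m) (p : Fin n → E3) : Prop :=
  ∀ f g x y, Side K f x y → Side K g y x →
    ¬ ∃ e : E3 →ᵃ[ℝ] ℝ, e.linear ≠ 0 ∧ (∀ z ∈ K f, e (p z) = 0) ∧ ∀ z ∈ K g, e (p z) = 0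

/-! ### The torus -/

/-- The torus with 11 vertices and 11 faces. -/
def T : Complex 11 11 :=
  ![[0,3,5,1], [0,1,7,4], [0,4,8,2], [0,2,6,3], [6,2,8,7,1,5],
    [3,4,9,5], [4,7,9], [5,9,10,6], [7,8,10,9], [6,10,3], [3,10,8,4]]

theorem T_edges : numEdges T = 22 := by decide +kernel

theorem T_valence : valence T 0 = 4 := by decide +kernel

theorem T_side_unique : ∀ f g x y, Side T f x y → Side T g x y → f = g := by decide +kernel

theorem T_side_opp : ∀ f x y, Side T f x y → ∃ g, Side T g y x := by decide +kernel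

theorem T_meet : ∀ f g, f ≠ g → MeetProperly T f g := by decide +kernel

/-- one step of the rotation around the vertex `x` -/
def linkStep (K : Complex n m) (x : Fin n) (f g : Fin m) : Prop := ∃ y, Side K f x y ∧ Side K g y x

instance (K : Complex n m) (x : Fin n) (f g : Fin m) : Decidable (linkStep K x f g) := by
  unfold linkStep; infer_instance


/-! ### `T` is a polyhedral map -/

section reach
variable {α : Type*} [Fintype α] [DecidableEq α]

def stepSet (R : α → α → Prop) [∀ a b, Decidable (R a b)] (s : Finset α) : Finset α :=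
  s ∪ Finset.univ.filter (fun b => ∃ a ∈ s, R a b)

theorem reach_of_mem (R : α → α → Prop) [∀ a b, Decidable (R a b)] (a : α) (k : ℕ) :
    ∀ b, b ∈ (stepSet R)^[k] {a} → Relation.ReflTransGen R a b := by
  induction k with
  | zero =>
    intro b hb
    simp only [Function.iterate_zero, id, Finset.mem_singleton] at hb
    subst hb; exact Relation.ReflTransGen.refl
  | succ k ih =>
    intro b hb
    rw [Function.iterate_succ_apply'] at hb
    simp only [stepSet, Finset.mem_union, Finset.mem_filter, Finset.mem_univ, true_and] at hb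
    rcases hb with hb | ⟨c, hc, hcb⟩
    · exact ih b hb
    · exact (ih c hc).tail hcb

end reach

def connStep (K : Complex n m) (f g : Fin m) : Prop := ∃ x y, Side K f x y ∧ Side K g y x

instance (K : Complex n m) (f g : Fin m) : Decidable (connStep K f g) := by
  unfold connStep; infer_instance

theorem T_link : ∀ x f g, x ∈ T f → x ∈ T g → g ∈ (stepSet (linkStep T x))^[5] {f} := by
  decide +kernel

theorem T_conn : ∀ f g, g ∈ (stepSet (connStep T))^[4] {f} := by
  decide +kernel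

theorem T_polyhedral : IsPolyhedralMap T where
  nonempty := by norm_num
  nodup := by decide +kernel
  three_le := by decide +kernel
  covers := by decide +kernel
  side_unique := T_side_unique
  side_opp := T_side_opp
  meet := T_meet
  link := fun x f g hf hg => reach_of_mem _ _ _ _ (T_link x f g hf hg)
  connected := fun f g => reach_of_mem _ _ _ _ (T_conn f g)

/-! ### An explicit realization -/

/-- an integral affine functional `(a,b,c,d) : z ↦ a z₀ + b z₁ + c z₂ - d` -/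
noncomputable def fn (q : ℤ × ℤ × ℤ × ℤ) : E3 →ᵃ[ℝ] ℝ where
  toFun z := q.1 * z 0 + q.2.1 * z 1 + q.2.2.1 * z 2 - q.2.2.2
  linear :=
    { toFun := fun z => q.1 * z 0 + q.2.1 * z 1 + q.2.2.1 * z 2
      map_add' := by intro x y; simp; ring
      map_smul' := by intro r x; simp; ring }
  map_vadd' := by intro x y; simp; ring

def ev (q : ℤ × ℤ × ℤ × ℤ) (x : ℤ × ℤ × ℤ) : ℤ :=
  q.1 * x.1 + q.2.1 * x.2.1 + q.2.2.1 * x.2.2 - q.2.2.2

noncomputable def pt (x : ℤ × ℤ × ℤ) : E3 := !₂[(x.1 : ℝ), (x.2.1 : ℝ), (x.2.2 : ℝ)]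

theorem fn_pt (q : ℤ × ℤ × ℤ × ℤ) (x : ℤ × ℤ × ℤ) : fn q (pt x) = (ev q x : ℝ) := by
  simp [fn, pt, ev]

theorem pt_injective : Function.Injective pt := by
  intro x y h
  have h0 : (pt x) 0 = (pt y) 0 := by rw [h]
  have h1 : (pt x) 1 = (pt y) 1 := by rw [h]
  have h2 : (pt x) 2 = (pt y) 2 := by rw [h]
  simp [pt] at h0 h1 h2
  exact Prod.ext h0 (Prod.ext h1 h2)

theorem fn_linear_ne (q : ℤ × ℤ × ℤ × ℤ) (hq : q.1 ≠ 0 ∨ q.2.1 ≠ 0 ∨ q.2.2.1 ≠ 0) :
    (fn q).linear ≠ 0 := by
  intro h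
  have h0 := congrArg (fun L : E3 →ₗ[ℝ] ℝ => L (EuclideanSpace.single 0 1)) h
  have h1 := congrArg (fun L : E3 →ₗ[ℝ] ℝ => L (EuclideanSpace.single 1 1)) h
  have h2 := congrArg (fun L : E3 →ₗ[ℝ] ℝ => L (EuclideanSpace.single 2 1)) h
  simp [fn] at h0 h1 h2
  rcases hq with hq | hq | hq <;> contradiction

/-- the coordinates of the vertices -/
def P : Fin 11 → ℤ × ℤ × ℤ :=
  ![(0,0,7), (0,-7,0), (0,7,0), (-4,0,3), (4,0,3), (-4,-3,0), (-4,3,0), (1,-6,0), (1,6,0),
    (-1,-2,1), (-1,4,1)]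

/-- `pairTable f g` (for `f < g`) is positive on the vertices of `f` outside `g`, negative on the
vertices of `g` outside `f`, zero on the common vertices -/
def pairTable : Fin 11 → Fin 11 → ℤ × ℤ × ℤ × ℤ :=
  ![
  ![(0,0,0,0), (-1,0,0,0), (-1,-1,0,0), (0,-1,0,0), (-1,-1,2,7), (-1,-2,2,10), (-2,-1,1,6), (-2,-3,4,17), (-2,-1,1,6), (1,-1,0,-4), (-1,-3,2,10)],
  ![(0,0,0,0), (0,0,0,0), (0,-1,0,0), (1,-1,0,0), (1,-1,2,7), (1,-2,2,10), (2,-3,4,20), (4,-1,1,3), (2,-3,5,20), (1,-1,1,0), (1,-2,2,10)],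
  ![(0,0,0,0), (0,0,0,0), (0,0,0,0), (1,0,0,0), (1,1,2,7), (1,2,2,10), (-1,5,1,-1), (7,1,5,3), (1,2,4,13), (8,1,1,2), (2,3,4,20)],
  ![(0,0,0,0), (0,0,0,0), (0,0,0,0), (0,0,0,0), (-1,1,2,7), (-1,3,2,10), (-1,2,1,1), (-4,5,6,31), (-2,2,2,13), (-3,4,4,24), (-7,9,8,52)],
  ![(0,0,0,0), (0,0,0,0), (0,0,0,0), (0,0,0,0), (0,0,0,0), (2,1,-8,-11), (-2,1,-9,-8), (1,0,-4,-4), (-1,0,-3,-1), (2,-1,-6,-11), (-2,-1,-7,-8)],
  ![(0,0,0,0), (0,0,0,0), (0,0,0,0), (0,0,0,0), (0,0,0,0), (0,0,0,0), (-2,5,0,-8), (-1,-1,4,7), (-3,-1,9,14), (1,-3,2,2), (0,-1,-1,-3)],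
  ![(0,0,0,0), (0,0,0,0), (0,0,0,0), (0,0,0,0), (0,0,0,0), (0,0,0,0), (0,0,0,0), (3,-1,1,0), (0,-1,4,6), (1,-1,0,0), (1,-2,-1,1)],
  ![(0,0,0,0), (0,0,0,0), (0,0,0,0), (0,0,0,0), (0,0,0,0), (0,0,0,0), (0,0,0,0), (0,0,0,0), (-1,0,0,1), (1,-1,-2,-7), (-4,-1,-9,-9)],
  ![(0,0,0,0), (0,0,0,0), (0,0,0,0), (0,0,0,0), (0,0,0,0), (0,0,0,0), (0,0,0,0), (0,0,0,0), (0,0,0,0), (3,-1,-2,-9), (-1,-1,-4,-7)],
  ![(0,0,0,0), (0,0,0,0), (0,0,0,0), (0,0,0,0), (0,0,0,0), (0,0,0,0), (0,0,0,0), (0,0,0,0), (0,0,0,0), (0,0,0,0), (-4,3,0,16)],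
  ![(0,0,0,0), (0,0,0,0), (0,0,0,0), (0,0,0,0), (0,0,0,0), (0,0,0,0), (0,0,0,0), (0,0,0,0), (0,0,0,0), (0,0,0,0), (0,0,0,0)]]

def pairOK (f g : Fin 11) : Bool :=
  (T f).all (fun x => if x ∈ T g then decide (ev (pairTable f g) (P x) = 0)
    else decide (0 < ev (pairTable f g) (P x))) &&
  (T g).all (fun x => if x ∈ T f then true else decide (ev (pairTable f g) (P x) < 0))

theorem pairTable_all : ∀ f g, f < g → pairOK f g = true := by decide +kernel

theorem pairTable_spec (f g : Fin 11) (h : f < g) :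
    (∀ x, x ∈ T f → x ∈ T g → ev (pairTable f g) (P x) = 0) ∧
    (∀ x, x ∈ T f → x ∉ T g → 0 < ev (pairTable f g) (P x)) ∧
    (∀ x, x ∈ T g → x ∉ T f → ev (pairTable f g) (P x) < 0) := by
  have := pairTable_all f g h
  simp only [pairOK, Bool.and_eq_true, List.all_eq_true] at this
  obtain ⟨h1, h2⟩ := this
  refine ⟨fun x hf hg => ?_, fun x hf hg => ?_, fun x hg hf => ?_⟩
  · have := h1 x hf
    simpa [hg] using this
  · have := h1 x hf
    simpa [hg] using this
  · have := h2 x hg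
    simpa [hf] using this

def planeTable : Fin 11 → ℤ × ℤ × ℤ × ℤ :=
  ![(-1,-1,1,7), (1,-1,1,7), (1,1,1,7), (-1,1,1,7), (0,0,-1,0), (0,1,-1,-3), (2,3,-8,-16),
    (-1,0,3,4), (1,0,2,1), (2,-3,-3,-17), (0,-1,-2,-6)]

theorem planeTable_spec : ∀ f x, x ∈ T f → ev (planeTable f) (P x) = 0 := by decide +kernel

theorem planeTable_ne : ∀ f, (planeTable f).1 ≠ 0 ∨ (planeTable f).2.1 ≠ 0 ∨
    (planeTable f).2.2.1 ≠ 0 := by decide +kernel

def sideTable : List (ℤ × ℤ × ℤ × ℤ) :=
  [(1,-2,-1,-7), (2,-1,1,-5), (1,1,2,-7), (-2,1,-1,-7),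
   (2,1,-1,-7), (-1,1,2,-7), (-1,0,1,-1), (-1,-2,-1,-7),
   (-1,2,-1,-7), (-1,0,1,-1), (-1,-1,2,-7), (2,-1,-1,-7),
   (-2,-1,-1,-7), (1,-1,2,-7), (2,1,1,-5), (1,2,-1,-7),
   (1,-1,0,-7), (-1,-1,0,-7), (-1,0,0,-1), (-1,1,0,-7), (1,1,0,-7), (1,0,0,-4),
   (0,-1,-1,-3), (-4,5,5,-1), (-2,3,3,-1), (1,0,0,-4),
   (-19,10,-1,-79), (5,2,2,-7), (2,-4,-1,5),
   (-3,10,-1,-18), (-3,0,-1,2), (3,-10,1,-42), (3,0,1,-12),
   (-2,0,1,-2), (4,-5,-2,-26), (2,0,-1,-3), (8,5,-4,-22),
   (0,-1,1,-3), (-18,5,-17,21), (3,1,1,-9),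
   (10,-6,3,-31), (5,-4,2,-19), (-5,-2,1,-17), (0,2,-1,-3)]

theorem sideTable_spec : ∀ f x y, Side T f x y → ∃ q ∈ sideTable,
    ev q (P x) = 0 ∧ ev q (P y) = 0 ∧ ∀ z ∈ T f, z ≠ x → z ≠ y → 0 < ev q (P z) := by
  decide +kernel

theorem P_injective : Function.Injective P := by decide +kernel

/-! ### Convex geometry: separating a pair of faces -/

/-- A point of the convex hull of a finite set at which a nonnegative functional vanishes is a
convex combination of the points at which the functional vanishes. -/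
theorem mem_hull_zero {ι : Type*} [Fintype ι] (q : ι → E3) (s : Set ι) (h : E3 →ᵃ[ℝ] ℝ)
    (hs : ∀ i ∈ s, 0 ≤ h (q i)) (z : E3) (hz : z ∈ convexHull ℝ (q '' s)) (hz0 : h z = 0) :
    z ∈ convexHull ℝ (q '' {i | i ∈ s ∧ h (q i) = 0}) := by
  classical
  obtain ⟨t, ht⟩ : ∃ t : Finset E3, (t : Set E3) = q '' s :=
    ⟨(Set.toFinite (q '' s)).toFinset, by simp⟩
  rw [← ht, Finset.mem_convexHull'] at hz
  obtain ⟨w, hw0, hw1, hwz⟩ := hz
  have hh : ∑ y ∈ t, w y * h y = 0 := by
    have : h z = ∑ y ∈ t, w y * h y := by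
      have h1 := t.map_affineCombination (id : E3 → E3) w hw1 h
      rw [Finset.affineCombination_eq_linear_combination _ _ _ hw1,
        Finset.affineCombination_eq_linear_combination _ _ _ hw1] at h1
      simp only [id, Function.comp] at h1
      rw [hwz] at h1
      simpa using h1
    rw [← this, hz0]
  have hnn : ∀ y ∈ t, 0 ≤ w y * h y := by
    intro y hy
    refine mul_nonneg (hw0 y hy) ?_
    have hy' : y ∈ q '' s := by rw [← ht]; exact hy
    obtain ⟨i, hi, rfl⟩ := hy'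
    exact hs i hi
  rw [Finset.sum_eq_zero_iff_of_nonneg hnn] at hh
  -- restrict the sum to the zero set
  have hz' : z = ∑ y ∈ t with h y = 0, w y • y := by
    rw [← hwz, Finset.sum_filter]
    refine Finset.sum_congr rfl (fun y hy => ?_)
    by_cases h0 : h y = 0
    · simp [h0]
    · have := (mul_eq_zero.mp (hh y hy)).resolve_right h0
      simp [h0, this]
  have hw1' : ∑ y ∈ t with h y = 0, w y = 1 := by
    rw [← hw1, Finset.sum_filter]
    refine Finset.sum_congr rfl (fun y hy => ?_)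
    by_cases h0 : h y = 0
    · simp [h0]
    · have := (mul_eq_zero.mp (hh y hy)).resolve_right h0
      simp [h0, this]
  rw [hz']
  refine Convex.sum_mem (convex_convexHull ℝ _) (fun y hy => hw0 y ?_) hw1' (fun y hy => ?_)
  · exact (Finset.mem_filter.mp hy).1
  · obtain ⟨hy1, hy2⟩ := Finset.mem_filter.mp hy
    have hy' : y ∈ q '' s := by rw [← ht]; exact hy1
    obtain ⟨i, hi, rfl⟩ := hy'
    exact subset_convexHull ℝ _ ⟨i, ⟨hi, hy2⟩, rfl⟩

theorem nonneg_on_hull {ι : Type*} (q : ι → E3) (s : Set ι) (h : E3 →ᵃ[ℝ] ℝ)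
    (hs : ∀ i ∈ s, 0 ≤ h (q i)) (z : E3) (hz : z ∈ convexHull ℝ (q '' s)) : 0 ≤ h z := by
  have hc : Convex ℝ {z : E3 | 0 ≤ h z} := (convex_Ici (0 : ℝ)).affine_preimage h
  exact convexHull_min (by rintro _ ⟨i, hi, rfl⟩; exact hs i hi) hc hz

/-- Two faces separated by a plane which meets each of them only in the common vertices. -/
theorem hull_inter {ι : Type*} [Fintype ι] (q : ι → E3) (s t : Set ι) (h : E3 →ᵃ[ℝ] ℝ)
    (h0 : ∀ i, i ∈ s → i ∈ t → h (q i) = 0) (hs : ∀ i, i ∈ s → i ∉ t → 0 < h (q i))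
    (ht : ∀ i, i ∈ t → i ∉ s → h (q i) < 0) :
    convexHull ℝ (q '' s) ∩ convexHull ℝ (q '' t) = convexHull ℝ (q '' {i | i ∈ s ∧ i ∈ t}) := by
  classical
  apply Set.Subset.antisymm
  · rintro z ⟨hzs, hzt⟩
    have h1 : 0 ≤ h z := nonneg_on_hull q s h (fun i hi => by
      by_cases hit : i ∈ t
      · exact (h0 i hi hit).ge
      · exact (hs i hi hit).le) z hzs
    have h2 : 0 ≤ (-h) z := nonneg_on_hull q t (-h) (fun i hi => by
      by_cases his : i ∈ s
      · have := h0 i his hi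
        simp [this]
      · have := ht i hi his
        simp only [AffineMap.coe_neg, Pi.neg_apply]
        linarith) z hzt
    have h3 : h z = 0 := by
      simp only [AffineMap.coe_neg, Pi.neg_apply] at h2
      linarith
    have := mem_hull_zero q s h (fun i hi => by
      by_cases hit : i ∈ t
      · exact (h0 i hi hit).ge
      · exact (hs i hi hit).le) z hzs h3
    refine convexHull_mono ?_ this
    rintro _ ⟨i, ⟨hi1, hi2⟩, rfl⟩
    refine ⟨i, ⟨hi1, ?_⟩, rfl⟩
    by_contra hit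
    exact absurd hi2 (hs i hi1 hit).ne'
  · refine Set.subset_inter (convexHull_mono ?_) (convexHull_mono ?_)
    · rintro _ ⟨i, ⟨hi1, hi2⟩, rfl⟩
      exact ⟨i, hi1, rfl⟩
    · rintro _ ⟨i, ⟨hi1, hi2⟩, rfl⟩
      exact ⟨i, hi2, rfl⟩

/-- the explicit realization -/
noncomputable def p0 : Fin 11 → E3 := fun x => pt (P x)

theorem p0_injective : Function.Injective p0 := pt_injective.comp P_injective

theorem sides_map {α β : Type*} (g : α → β) (l : List α) :
    sides (l.map g) = (sides l).map (Prod.map g g) := by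
  rw [sides, sides, ← List.map_rotate, List.zip_map]

theorem T_realization : IsRealization T p0 where
  injective := p0_injective
  polygon f := by
    refine ⟨?_, ?_, ?_, ?_⟩
    · simpa using T_polyhedral.three_le f
    · exact (T_polyhedral.nodup f).map p0_injective
    · refine ⟨fn (planeTable f), fn_linear_ne _ (planeTable_ne f), ?_⟩
      intro x hx
      obtain ⟨i, hi, rfl⟩ := List.mem_map.mp hx
      rw [p0, fn_pt, planeTable_spec f i hi]; simp
    · intro s hs
      rw [sides_map] at hs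
      obtain ⟨⟨x, y⟩, hxy, rfl⟩ := List.mem_map.mp hs
      obtain ⟨q, -, h1, h2, h3⟩ := sideTable_spec f x y hxy
      refine ⟨fn q, ?_, ?_, ?_⟩
      · simp [p0, fn_pt, h1]
      · simp [p0, fn_pt, h2]
      · intro z hz hzx hzy
        obtain ⟨i, hi, rfl⟩ := List.mem_map.mp hz
        have hix : i ≠ x := fun h => hzx (by rw [h]; rfl)
        have hiy : i ≠ y := fun h => hzy (by rw [h]; rfl)
        have := h3 i hi hix hiy
        rw [p0, fn_pt]
        exact_mod_cast this
  meet f g hfg := by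
    rcases lt_or_gt_of_ne hfg with h | h
    · obtain ⟨h1, h2, h3⟩ := pairTable_spec f g h
      refine hull_inter p0 {x | x ∈ T f} {x | x ∈ T g} (fn (pairTable f g)) ?_ ?_ ?_
      · intro i hi hj
        rw [p0, fn_pt, h1 i hi hj]; simp
      · intro i hi hj
        rw [p0, fn_pt]
        exact_mod_cast h2 i hi hj
      · intro i hi hj
        rw [p0, fn_pt]
        exact_mod_cast h3 i hi hj
    · obtain ⟨h1, h2, h3⟩ := pairTable_spec g f h
      have := hull_inter p0 {x | x ∈ T g} {x | x ∈ T f} (fn (pairTable g f)) ?_ ?_ ?_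
      · rw [face, face, Set.inter_comm, this]
        congr 2
        ext i
        exact and_comm
      · intro i hi hj
        rw [p0, fn_pt, h1 i hi hj]; simp
      · intro i hi hj
        rw [p0, fn_pt]
        exact_mod_cast h2 i hi hj
      · intro i hi hj
        rw [p0, fn_pt]
        exact_mod_cast h3 i hi hj

/-! ### Linear algebra in 3-space -/

/-- coordinates of a linear functional -/
noncomputable def cf (L : E3 →ₗ[ℝ] ℝ) (i : Fin 3) : ℝ := L (EuclideanSpace.single i 1)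

theorem lin_coord (L : E3 →ₗ[ℝ] ℝ) (z : E3) :
    L z = cf L 0 * z 0 + cf L 1 * z 1 + cf L 2 * z 2 := by
  have : z = z 0 • EuclideanSpace.single 0 (1:ℝ) + z 1 • EuclideanSpace.single 1 (1:ℝ)
      + z 2 • EuclideanSpace.single 2 (1:ℝ) := by
    ext i; fin_cases i <;> simp
  conv_lhs => rw [this]
  simp [mul_comm, cf]

theorem cf_ne (L : E3 →ₗ[ℝ] ℝ) (hL : L ≠ 0) : 0 < cf L 0 ^ 2 + cf L 1 ^ 2 + cf L 2 ^ 2 := by
  by_contra hcon
  apply hL
  have h0 : cf L 0 = 0 := by nlinarith [sq_nonneg (cf L 0), sq_nonneg (cf L 1), sq_nonneg (cf L 2)]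
  have h1 : cf L 1 = 0 := by nlinarith [sq_nonneg (cf L 0), sq_nonneg (cf L 1), sq_nonneg (cf L 2)]
  have h2 : cf L 2 = 0 := by nlinarith [sq_nonneg (cf L 0), sq_nonneg (cf L 1), sq_nonneg (cf L 2)]
  ext z
  rw [lin_coord, h0, h1, h2]; simp

theorem vec_ne (u : E3) (hu : u ≠ 0) : 0 < u 0 ^ 2 + u 1 ^ 2 + u 2 ^ 2 := by
  by_contra hcon
  apply hu
  have h0 : u 0 = 0 := by nlinarith [sq_nonneg (u 0), sq_nonneg (u 1), sq_nonneg (u 2)]
  have h1 : u 1 = 0 := by nlinarith [sq_nonneg (u 0), sq_nonneg (u 1), sq_nonneg (u 2)]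
  have h2 : u 2 = 0 := by nlinarith [sq_nonneg (u 0), sq_nonneg (u 1), sq_nonneg (u 2)]
  ext i; fin_cases i <;> simp [h0, h1, h2]

theorem aff_sub (h : E3 →ᵃ[ℝ] ℝ) (x y : E3) : h y - h x = h.linear (y - x) := by
  have := h.linearMap_vsub y x
  simpa using this.symm

/-- signed area (up to scale) in a plane with normal `n` -/
def D (n0 n1 n2 : ℝ) (u t : E3) : ℝ :=
  n0 * (u 1 * t 2 - u 2 * t 1) + n1 * (u 2 * t 0 - u 0 * t 2) + n2 * (u 0 * t 1 - u 1 * t 0)

theorem alg_prop (n0 n1 n2 u0 u1 u2 t0 t1 t2 s0 s1 s2 L0 L1 L2 M0 M1 M2 : ℝ)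
    (hn : 0 < n0^2+n1^2+n2^2) (hu : 0 < u0^2+u1^2+u2^2)
    (nu : n0*u0+n1*u1+n2*u2 = 0) (nt : n0*t0+n1*t1+n2*t2 = 0) (ns : n0*s0+n1*s1+n2*s2 = 0)
    (Lu : L0*u0+L1*u1+L2*u2 = 0) (Mu : M0*u0+M1*u1+M2*u2 = 0) :
    (L0*s0+L1*s1+L2*s2)*(M0*t0+M1*t1+M2*t2) = (L0*t0+L1*t1+L2*t2)*(M0*s0+M1*s1+M2*s2) := by
  have A0 : (u0^2+u1^2+u2^2)*(L1*M2-L2*M1)
      = u0*(u0*(L1*M2-L2*M1)+u1*(L2*M0-L0*M2)+u2*(L0*M1-L1*M0)) := by
    linear_combination (u1*M2 - u2*M1)*Lu + (u2*L1-u1*L2)*Mu
  have A1 : (u0^2+u1^2+u2^2)*(L2*M0-L0*M2)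
      = u1*(u0*(L1*M2-L2*M1)+u1*(L2*M0-L0*M2)+u2*(L0*M1-L1*M0)) := by
    linear_combination (u2*M0 - u0*M2)*Lu + (u0*L2-u2*L0)*Mu
  have A2 : (u0^2+u1^2+u2^2)*(L0*M1-L1*M0)
      = u2*(u0*(L1*M2-L2*M1)+u1*(L2*M0-L0*M2)+u2*(L0*M1-L1*M0)) := by
    linear_combination (u0*M1 - u1*M0)*Lu + (u1*L0-u0*L1)*Mu
  have B0 : (n0^2+n1^2+n2^2)*(s1*t2-s2*t1)
      = n0*(n0*(s1*t2-s2*t1)+n1*(s2*t0-s0*t2)+n2*(s0*t1-s1*t0)) := by
    linear_combination (n1*t2 - n2*t1)*ns + (n2*s1-n1*s2)*nt
  have B1 : (n0^2+n1^2+n2^2)*(s2*t0-s0*t2)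
      = n1*(n0*(s1*t2-s2*t1)+n1*(s2*t0-s0*t2)+n2*(s0*t1-s1*t0)) := by
    linear_combination (n2*t0 - n0*t2)*ns + (n0*s2-n2*s0)*nt
  have B2 : (n0^2+n1^2+n2^2)*(s0*t1-s1*t0)
      = n2*(n0*(s1*t2-s2*t1)+n1*(s2*t0-s0*t2)+n2*(s0*t1-s1*t0)) := by
    linear_combination (n0*t1 - n1*t0)*ns + (n1*s0-n0*s1)*nt
  have key : (u0^2+u1^2+u2^2)*(n0^2+n1^2+n2^2) *
      ((L0*s0+L1*s1+L2*s2)*(M0*t0+M1*t1+M2*t2) - (L0*t0+L1*t1+L2*t2)*(M0*s0+M1*s1+M2*s2)) = 0 := by
    have e : (u0^2+u1^2+u2^2)*(n0^2+n1^2+n2^2) *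
      ((L0*s0+L1*s1+L2*s2)*(M0*t0+M1*t1+M2*t2) - (L0*t0+L1*t1+L2*t2)*(M0*s0+M1*s1+M2*s2)) =
      ((u0^2+u1^2+u2^2)*(L1*M2-L2*M1)) * ((n0^2+n1^2+n2^2)*(s1*t2-s2*t1)) +
      ((u0^2+u1^2+u2^2)*(L2*M0-L0*M2)) * ((n0^2+n1^2+n2^2)*(s2*t0-s0*t2)) +
      ((u0^2+u1^2+u2^2)*(L0*M1-L1*M0)) * ((n0^2+n1^2+n2^2)*(s0*t1-s1*t0)) := by ring
    rw [e, A0, A1, A2, B0, B1, B2]
    linear_combination ((u0*(L1*M2-L2*M1)+u1*(L2*M0-L0*M2)+u2*(L0*M1-L1*M0)) *
      (n0*(s1*t2-s2*t1)+n1*(s2*t0-s0*t2)+n2*(s0*t1-s1*t0))) * nu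
  have h3 := (mul_eq_zero.mp key).resolve_left (by positivity)
  linarith

/-- Two functionals vanishing on a line of a plane are proportional on that plane. -/
theorem prop_lemma (e φ h : E3 →ᵃ[ℝ] ℝ) (he : e.linear ≠ 0) (x1 x2 x x' : E3) (h12 : x1 ≠ x2)
    (e1 : e x1 = 0) (e2 : e x2 = 0) (ex : e x = 0) (ex' : e x' = 0)
    (φ1 : φ x1 = 0) (φ2 : φ x2 = 0) (h1 : h x1 = 0) (h2 : h x2 = 0) :
    φ x' * h x = φ x * h x' := by
  have hφ' : φ x' = φ.linear (x' - x1) := by rw [← aff_sub, φ1, sub_zero]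
  have hφx : φ x = φ.linear (x - x1) := by rw [← aff_sub, φ1, sub_zero]
  have hh' : h x' = h.linear (x' - x1) := by rw [← aff_sub, h1, sub_zero]
  have hhx : h x = h.linear (x - x1) := by rw [← aff_sub, h1, sub_zero]
  have E2 : e.linear (x2 - x1) = 0 := by rw [← aff_sub, e1, e2, sub_zero]
  have Ex : e.linear (x - x1) = 0 := by rw [← aff_sub, e1, ex, sub_zero]
  have Ex' : e.linear (x' - x1) = 0 := by rw [← aff_sub, e1, ex', sub_zero]
  have F2 : φ.linear (x2 - x1) = 0 := by rw [← aff_sub, φ1, φ2, sub_zero]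
  have H2 : h.linear (x2 - x1) = 0 := by rw [← aff_sub, h1, h2, sub_zero]
  rw [hφ', hφx, hh', hhx]
  rw [lin_coord] at E2 Ex Ex' F2 H2
  rw [lin_coord, lin_coord h.linear, lin_coord φ.linear, lin_coord h.linear]
  exact alg_prop _ _ _ _ _ _ _ _ _ _ _ _ _ _ _ _ _ _ (cf_ne _ he)
    (vec_ne _ (sub_ne_zero.mpr h12.symm)) E2 Ex Ex' F2 H2

theorem alg_area (n0 n1 n2 u0 u1 u2 t0 t1 t2 s0 s1 s2 M0 M1 M2 : ℝ)
    (hn : 0 < n0^2+n1^2+n2^2) (hu : 0 < u0^2+u1^2+u2^2)
    (nu : n0*u0+n1*u1+n2*u2 = 0) (nt : n0*t0+n1*t1+n2*t2 = 0) (ns : n0*s0+n1*s1+n2*s2 = 0)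
    (Mu : M0*u0+M1*u1+M2*u2 = 0) :
    (n0 * (u1 * t2 - u2 * t1) + n1 * (u2 * t0 - u0 * t2) + n2 * (u0 * t1 - u1 * t0)) *
      (M0*s0+M1*s1+M2*s2) =
    (n0 * (u1 * s2 - u2 * s1) + n1 * (u2 * s0 - u0 * s2) + n2 * (u0 * s1 - u1 * s0)) *
      (M0*t0+M1*t1+M2*t2) := by
  have := alg_prop n0 n1 n2 u0 u1 u2 t0 t1 t2 s0 s1 s2
    (n2*u1 - n1*u2) (n0*u2 - n2*u0) (n1*u0 - n0*u1) M0 M1 M2 hn hu nu nt ns (by ring) Mu
  linear_combination this


theorem D_ne (n0 n1 n2 u0 u1 u2 t0 t1 t2 M0 M1 M2 : ℝ)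
    (hn : 0 < n0^2+n1^2+n2^2) (hu : 0 < u0^2+u1^2+u2^2)
    (nu : n0*u0+n1*u1+n2*u2 = 0) (nt : n0*t0+n1*t1+n2*t2 = 0)
    (Mu : M0*u0+M1*u1+M2*u2 = 0) (Mt : M0*t0+M1*t1+M2*t2 ≠ 0) :
    n0 * (u1 * t2 - u2 * t1) + n1 * (u2 * t0 - u0 * t2) + n2 * (u0 * t1 - u1 * t0) ≠ 0 := by
  intro h0
  have := alg_area n0 n1 n2 u0 u1 u2 t0 t1 t2 (u1*n2-u2*n1) (u2*n0-u0*n2) (u0*n1-u1*n0)
    M0 M1 M2 hn hu nu nt (by ring) Mu
  rw [h0, zero_mul] at this
  have h2 := (mul_eq_zero.mp this.symm).resolve_right Mt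
  have h3 : (u0^2+u1^2+u2^2)*(n0^2+n1^2+n2^2) = 0 := by
    linear_combination (-1)*h2 + (n0*u0+n1*u1+n2*u2)*nu
  have : 0 < (u0^2+u1^2+u2^2)*(n0^2+n1^2+n2^2) := by positivity
  linarith

theorem alg_span (n0 n1 n2 u0 u1 u2 t0 t1 t2 s0 s1 s2 : ℝ)
    (hn : 0 < n0^2+n1^2+n2^2)
    (nu : n0*u0+n1*u1+n2*u2 = 0) (nt : n0*t0+n1*t1+n2*t2 = 0) (ns : n0*s0+n1*s1+n2*s2 = 0) :
    u0 * (t1 * s2 - t2 * s1) + u1 * (t2 * s0 - t0 * s2) + u2 * (t0 * s1 - t1 * s0) = 0 := by
  have : (n0^2+n1^2+n2^2) *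
    (u0 * (t1 * s2 - t2 * s1) + u1 * (t2 * s0 - t0 * s2) + u2 * (t0 * s1 - t1 * s0)) = 0 := by
    linear_combination
      (n0 * (t1 * s2 - t2 * s1) + n1 * (t2 * s0 - t0 * s2) + n2 * (t0 * s1 - t1 * s0)) * nu
      - (n0 * (u1 * s2 - u2 * s1) + n1 * (u2 * s0 - u0 * s2) + n2 * (u0 * s1 - u1 * s0)) * nt
      + (n0 * (u1 * t2 - u2 * t1) + n1 * (u2 * t0 - u0 * t2) + n2 * (u0 * t1 - u1 * t0)) * ns
  exact (mul_eq_zero.mp this).resolve_left hn.ne'

section general
variable {K : Complex n m} {p : Fin n → E3}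

/-- the supporting functional of a side of a face -/
theorem side_functional (hp : IsRealization K p) {f : Fin m} {x y : Fin n} (h : Side K f x y) :
    ∃ k : E3 →ᵃ[ℝ] ℝ, k (p x) = 0 ∧ k (p y) = 0 ∧
      ∀ z ∈ K f, z ≠ x → z ≠ y → 0 < k (p z) := by
  obtain ⟨-, -, -, hs⟩ := hp.polygon f
  have hmem : (p x, p y) ∈ sides ((K f).map p) := by
    rw [sides_map]; exact List.mem_map.mpr ⟨(x, y), h, rfl⟩
  obtain ⟨k, h1, h2, h3⟩ := hs _ hmem
  refine ⟨k, h1, h2, fun z hz hzx hzy => h3 _ (List.mem_map.mpr ⟨z, hz, rfl⟩) ?_ ?_⟩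
  · exact fun h => hzx (hp.injective h)
  · exact fun h => hzy (hp.injective h)

/-- the plane of a face -/
theorem plane_functional (hp : IsRealization K p) (f : Fin m) :
    ∃ k : E3 →ᵃ[ℝ] ℝ, k.linear ≠ 0 ∧ ∀ z ∈ K f, k (p z) = 0 := by
  obtain ⟨-, -, ⟨e, he, h⟩, -⟩ := hp.polygon f
  exact ⟨e, he, fun z hz => h _ (List.mem_map.mpr ⟨z, hz, rfl⟩)⟩

/-- signed area of the triangle `x y z` in the plane `e = 0` -/
noncomputable def Tr (e : E3 →ᵃ[ℝ] ℝ) (p : Fin n → E3) (x y z : Fin n) : ℝ :=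
  D (cf e.linear 0) (cf e.linear 1) (cf e.linear 2) (p y - p x) (p z - p x)

theorem Tr_rot (e : E3 →ᵃ[ℝ] ℝ) (p : Fin n → E3) (x y z : Fin n) : Tr e p x y z = Tr e p y z x := by
  simp only [Tr, D, PiLp.sub_apply]; ring

theorem Tr_swap (e : E3 →ᵃ[ℝ] ℝ) (p : Fin n → E3) (x y z : Fin n) :
    Tr e p y x z = - Tr e p x y z := by
  simp only [Tr, D, PiLp.sub_apply]; ring

theorem same_sign (hp : IsRealization K p) (e : E3 →ᵃ[ℝ] ℝ) (he : e.linear ≠ 0)
    (hflat : ∀ x, e (p x) = 0) {f : Fin m} {x y z z' : Fin n} (hxy : x ≠ y) (h : Side K f x y)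
    (hz : z ∈ K f) (hzx : z ≠ x) (hzy : z ≠ y) (hz' : z' ∈ K f) (hzx' : z' ≠ x) (hzy' : z' ≠ y) :
    0 < Tr e p x y z * Tr e p x y z' := by
  obtain ⟨k, h1, h2, h3⟩ := side_functional hp h
  have kz : k (p z) = k.linear (p z - p x) := by rw [← aff_sub, h1, sub_zero]
  have kz' : k (p z') = k.linear (p z' - p x) := by rw [← aff_sub, h1, sub_zero]
  have k2 : k.linear (p y - p x) = 0 := by rw [← aff_sub, h1, h2, sub_zero]
  have ey : e.linear (p y - p x) = 0 := by rw [← aff_sub, hflat, hflat, sub_zero]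
  have ez : e.linear (p z - p x) = 0 := by rw [← aff_sub, hflat, hflat, sub_zero]
  have ez' : e.linear (p z' - p x) = 0 := by rw [← aff_sub, hflat, hflat, sub_zero]
  have pz := h3 z hz hzx hzy
  have pz' := h3 z' hz' hzx' hzy'
  rw [kz, lin_coord] at pz
  rw [kz', lin_coord] at pz'
  rw [lin_coord] at k2 ey ez ez'
  have hu := vec_ne _ (sub_ne_zero.mpr (hp.injective.ne hxy.symm))
  have A := alg_area _ _ _ _ _ _ _ _ _ _ _ _ _ _ _ (cf_ne _ he) hu ey ez ez' k2
  have N := D_ne _ _ _ _ _ _ _ _ _ _ _ _ (cf_ne _ he) hu ey ez k2 pz.ne'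
  change 0 < D _ _ _ _ _ * D _ _ _ _ _
  unfold D
  set a := cf e.linear 0 * ((p y - p x) 1 * (p z - p x) 2 - (p y - p x) 2 * (p z - p x) 1) +
      cf e.linear 1 * ((p y - p x) 2 * (p z - p x) 0 - (p y - p x) 0 * (p z - p x) 2) +
    cf e.linear 2 * ((p y - p x) 0 * (p z - p x) 1 - (p y - p x) 1 * (p z - p x) 0)
  set b := cf e.linear 0 * ((p y - p x) 1 * (p z' - p x) 2 - (p y - p x) 2 * (p z' - p x) 1) +
      cf e.linear 1 * ((p y - p x) 2 * (p z' - p x) 0 - (p y - p x) 0 * (p z' - p x) 2) +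
    cf e.linear 2 * ((p y - p x) 0 * (p z' - p x) 1 - (p y - p x) 1 * (p z' - p x) 0)
  set M := cf k.linear 0 * (p z - p x) 0 + cf k.linear 1 * (p z - p x) 1
    + cf k.linear 2 * (p z - p x) 2
  set M' := cf k.linear 0 * (p z' - p x) 0 + cf k.linear 1 * (p z' - p x) 1
    + cf k.linear 2 * (p z' - p x) 2
  -- `a * M' = b * M`
  have hb : b = a * M' / M := by field_simp; linarith
  rw [hb]
  have : a * (a * M' / M) = a ^ 2 * (M' / M) := by ring
  rw [this]
  positivity


theorem opp_sign (hp : IsRealization K p) (e : E3 →ᵃ[ℝ] ℝ) (he : e.linear ≠ 0)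
    (hflat : ∀ x, e (p x) = 0) {f g : Fin m} {x y z z' : Fin n} (hxy : x ≠ y) (hfg : f ≠ g)
    (h : Side K f x y) (hxf : x ∈ K f) (hyf : y ∈ K f) (hxg : x ∈ K g) (hyg : y ∈ K g)
    (h' : Side K g y x)
    (hcom : ∀ w, w ∈ K f → w ∈ K g → w = x ∨ w = y)
    (hz : z ∈ K f) (hzx : z ≠ x) (hzy : z ≠ y) (hz' : z' ∈ K g) (hzx' : z' ≠ x) (hzy' : z' ≠ y) :
    Tr e p x y z * Tr e p x y z' < 0 := by
  have hTz : Tr e p x y z ≠ 0 := by
    intro h0
    have := same_sign hp e he hflat hxy h hz hzx hzy hz hzx hzy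
    rw [h0] at this; simp at this
  have hTz' : Tr e p x y z' ≠ 0 := by
    intro h0
    have := same_sign hp e he hflat hxy.symm h' hz' hzy' hzx' hz' hzy' hzx'
    rw [Tr_swap, h0] at this; simp at this
  by_contra hcon
  have hpos : 0 < Tr e p x y z * Tr e p x y z' :=
    lt_of_le_of_ne (not_lt.mp hcon) (mul_ne_zero hTz hTz').symm
  obtain ⟨k, h1, h2, h3⟩ := side_functional hp h
  have kz := h3 z hz hzx hzy
  have ey : e.linear (p y - p x) = 0 := by rw [← aff_sub, hflat, hflat, sub_zero]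
  have ez : e.linear (p z - p x) = 0 := by rw [← aff_sub, hflat, hflat, sub_zero]
  have ez' : e.linear (p z' - p x) = 0 := by rw [← aff_sub, hflat, hflat, sub_zero]
  rw [lin_coord] at ey ez ez'
  have hdet := alg_span _ _ _ _ _ _ _ _ _ _ _ _ (cf_ne _ he) ey ez ez'
  -- `p z' - p x = α (p y - p x) + β (p z - p x)`
  set β : ℝ := Tr e p x y z' / Tr e p x y z with hβ
  set α : ℝ := - (D (cf e.linear 0) (cf e.linear 1) (cf e.linear 2) (p z - p x) (p z' - p x))
    / Tr e p x y z with hα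
  have hβpos : 0 < β := by
    rw [hβ]
    rcases (mul_pos_iff.mp hpos) with ⟨a, b⟩ | ⟨a, b⟩
    · exact div_pos b a
    · exact div_pos_of_neg_of_neg b a
  have hspan : ∀ i : Fin 3, (p z' - p x) i = α * (p y - p x) i + β * (p z - p x) i := by
    have hT : Tr e p x y z ≠ 0 := hTz
    intro i
    rw [hα, hβ]
    field_simp
    fin_cases i
    · simp only [Tr, D, Fin.zero_eta]
      linear_combination (cf e.linear 0) * hdet
    · simp only [Tr, D, Fin.mk_one]
      linear_combination (cf e.linear 1) * hdet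
    · simp only [Tr, D, Fin.reduceFinMk]
      linear_combination (cf e.linear 2) * hdet
  -- a common point of the two faces off the edge
  set ε : ℝ := 1 / (2 * (1 + |α| + β)) with hε
  have hden : 0 < 1 + |α| + β := by positivity
  have hεpos : 0 < ε := by rw [hε]; positivity
  have hε1 : ε * (1 + |α| + β) = 1 / 2 := by rw [hε]; field_simp
  have habs : -|α| ≤ α ∧ α ≤ |α| := ⟨neg_abs_le α, le_abs_self α⟩
  have hεα : -(1/2) ≤ ε * α := by nlinarith [habs.1, habs.2, mul_pos hεpos hβpos]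
  have hεα2 : ε * α + ε * β ≤ 1/2 := by nlinarith [habs.1, habs.2, mul_pos hεpos hβpos]
  have hεhalf : ε ≤ 1/2 := by nlinarith [abs_nonneg α, mul_pos hεpos hβpos, mul_nonneg hεpos.le (abs_nonneg α)]
  set w : E3 := (1/2 - ε) • p x + (1/2 : ℝ) • p y + ε • p z' with hw
  have hw' : w = (1/2 - ε * α - ε * β) • p x + (1/2 + ε * α) • p y + (ε * β) • p z := by
    ext i
    have := hspan i
    simp only [PiLp.sub_apply] at this
    simp only [hw, PiLp.add_apply, PiLp.smul_apply, smul_eq_mul]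
    linear_combination ε * this
  have mem3 : ∀ (S : Set E3), Convex ℝ S → ∀ a b c : E3, a ∈ S → b ∈ S → c ∈ S →
      ∀ r s t : ℝ, 0 ≤ r → 0 ≤ s → 0 ≤ t → r + s + t = 1 → r • a + s • b + t • c ∈ S := by
    intro S hS a b c ha hb hc r s t hr hs ht hrst
    have := hS.sum_mem (t := Finset.univ) (w := ![r, s, t]) (z := ![a, b, c])
      (by intro i _; fin_cases i <;> simp [hr, hs, ht])
      (by simp [Fin.sum_univ_succ]; linarith)
      (by intro i _; fin_cases i <;> simp [ha, hb, hc])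
    simpa [Fin.sum_univ_succ, add_assoc] using this
  have inF : ∀ {f' : Fin m} {v : Fin n}, v ∈ K f' → p v ∈ face K p f' := fun hv =>
    subset_convexHull ℝ _ ⟨_, hv, rfl⟩
  have hwg : w ∈ face K p g :=
    mem3 _ (convex_convexHull ℝ _) _ _ _ (inF hxg) (inF hyg) (inF hz') _ _ _
      (by linarith) (by norm_num) hεpos.le (by ring)
  have hwf : w ∈ face K p f := by
    rw [hw']
    exact mem3 _ (convex_convexHull ℝ _) _ _ _ (inF hxf) (inF hyf) (inF hz) _ _ _
      (by linarith) (by linarith) (by positivity) (by ring)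
  have hwc : w ∈ convexHull ℝ (p '' {v | v ∈ K f ∧ v ∈ K g}) := by
    rw [← hp.meet f g hfg]; exact ⟨hwf, hwg⟩
  have hk0 : ∀ v ∈ {v | v ∈ K f ∧ v ∈ K g}, k (p v) = 0 := by
    rintro v ⟨hv1, hv2⟩
    rcases hcom v hv1 hv2 with rfl | rfl
    · exact h1
    · exact h2
  have a1 := nonneg_on_hull p _ k (fun v hv => (hk0 v hv).ge) w hwc
  have a2 := nonneg_on_hull p _ (-k) (fun v hv => by simp [hk0 v hv]) w hwc
  have hkw : k w = ε * β * k (p z) := by
    have e1 : k w = k (p x) + k.linear (w - p x) := by rw [← aff_sub]; ring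
    have e2 : w - p x = (1/2 + ε * α) • (p y - p x) + (ε * β) • (p z - p x) := by
      rw [hw']; module
    rw [e1, e2, map_add, map_smul, map_smul, ← aff_sub, ← aff_sub, h1, h2]
    simp
  simp only [AffineMap.coe_neg, Pi.neg_apply] at a2
  have : 0 < ε * β * k (p z) := by positivity
  linarith

end general

/-! ### No realization of `T` lies in a plane -/

theorem T_side_mem : ∀ f x y, Side T f x y → x ∈ T f ∧ y ∈ T f ∧ x ≠ y := by decide +kernel

theorem T_third : ∀ f x y, Side T f x y → ∃ z ∈ T f, z ≠ x ∧ z ≠ y := by decide +kernel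

theorem T_next : ∀ f x y z, Side T f x y → Side T f y z → z ≠ x := by decide +kernel

theorem T_common : ∀ f g x y, Side T f x y → Side T g y x →
    f ≠ g ∧ ∀ w ∈ T f, w ∈ T g → w = x ∨ w = y := by decide +kernel

theorem T_around : ∀ f, ∀ x ∈ T f, ∀ x' ∈ T f, x' ∈ (stepSet (Side T f))^[5] {x} := by
  decide +kernel

theorem T_side_fun : ∀ f x y y', Side T f x y → Side T f x y' → y = y' := by decide +kernel

section flat
variable {p : Fin 11 → E3} (hp : IsRealization T p) (e : E3 →ᵃ[ℝ] ℝ) (he : e.linear ≠ 0)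
  (hflat : ∀ x, e (p x) = 0) (ε : ℝ)

def Good (e : E3 →ᵃ[ℝ] ℝ) (p : Fin 11 → E3) (ε : ℝ) (f : Fin 11) (x y : Fin 11) : Prop :=
  ∀ z ∈ T f, z ≠ x → z ≠ y → 0 < ε * Tr e p x y z

include hp he hflat

theorem good_next {f x y z} (h1 : Side T f x y) (h2 : Side T f y z) (hg : Good e p ε f x y) :
    Good e p ε f y z := by
  have hzx := T_next f x y z h1 h2
  obtain ⟨hx, hy, hxy⟩ := T_side_mem f x y h1
  obtain ⟨-, hz, hyz⟩ := T_side_mem f y z h2
  have a := hg z hz hzx hyz.symm
  rw [Tr_rot] at a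
  intro v hv hvy hvz
  have b := same_sign hp e he hflat hyz h2 hx hxy hzx.symm hv hvy hvz
  have c : 0 < (ε * Tr e p y z x) * (Tr e p y z x * Tr e p y z v) := mul_pos a b
  have d : (ε * Tr e p y z x) * (Tr e p y z x * Tr e p y z v)
    = (ε * Tr e p y z v) * (Tr e p y z x) ^ 2 := by ring
  rw [d] at c
  have hne : Tr e p y z x ≠ 0 := fun h => by rw [h] at a; simp at a
  exact (mul_pos_iff_of_pos_right (by positivity)).mp c

theorem good_opp {f g x y} (h1 : Side T f x y) (h2 : Side T g y x) (hg : Good e p ε f x y) :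
    Good e p ε g y x := by
  obtain ⟨hx, hy, hxy⟩ := T_side_mem f x y h1
  obtain ⟨hy', hx', -⟩ := T_side_mem g y x h2
  obtain ⟨hfg, hcom⟩ := T_common f g x y h1 h2
  obtain ⟨z, hz, hzx, hzy⟩ := T_third f x y h1
  have a := hg z hz hzx hzy
  intro v hv hvy hvx
  have b := opp_sign hp e he hflat hxy hfg h1 hx hy hx' hy' h2 hcom hz hzx hzy hv hvx hvy
  rw [Tr_swap]
  have hne : Tr e p x y z ≠ 0 := fun h => by rw [h] at a; simp at a
  have c : 0 < (ε * Tr e p x y z) * (-(Tr e p x y z * Tr e p x y v)) := mul_pos a (by linarith)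
  have d : (ε * Tr e p x y z) * (-(Tr e p x y z * Tr e p x y v))
    = (ε * -Tr e p x y v) * (Tr e p x y z) ^ 2 := by ring
  rw [d] at c
  exact (mul_pos_iff_of_pos_right (by positivity)).mp c


def AllGood (e : E3 →ᵃ[ℝ] ℝ) (p : Fin 11 → E3) (ε : ℝ) (f : Fin 11) : Prop :=
  ∀ x y, Side T f x y → Good e p ε f x y

theorem allGood_of_good {f x y} (h1 : Side T f x y) (hg : Good e p ε f x y) :
    AllGood e p ε f := by
  have key : ∀ x', Relation.ReflTransGen (Side T f) x x' →
      ∀ y', Side T f x' y' → Good e p ε f x' y' := by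
    intro x' hx'
    induction hx' with
    | refl =>
      intro y' hy'
      rwa [T_side_fun f x y' y hy' h1]
    | tail _ hbc ih =>
      intro y' hy'
      exact good_next hp e he hflat ε hbc hy' (ih _ hbc)
  intro x' y' h'
  exact key x' (reach_of_mem _ _ _ _ (T_around f x (T_side_mem f x y h1).1 x'
    (T_side_mem f x' y' h').1)) y' h'

theorem allGood_all {f} (hf : AllGood e p ε f) : ∀ g, AllGood e p ε g := by
  intro g
  have hc := T_polyhedral.connected f g
  induction hc with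
  | refl => exact hf
  | tail _ hbc ih =>
    obtain ⟨x, y, h1, h2⟩ := hbc
    exact allGood_of_good hp e he hflat ε h2 (good_opp hp e he hflat ε h1 h2 (ih _ _ h1))

theorem not_flat : False := by
  -- choose the sign of the first triangle
  have h0 : Side T 0 0 3 := by decide +kernel
  have hne : Tr e p 0 3 5 ≠ 0 := by
    intro h
    have := same_sign hp e he hflat (by decide) h0 (z := 5) (z' := 5) (by decide +kernel)
      (by decide) (by decide) (by decide +kernel) (by decide) (by decide)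
    rw [h] at this; simp at this
  set ε : ℝ := Tr e p 0 3 5 with hε
  have hgood : Good e p ε 0 0 3 := by
    intro z hz hz0 hz3
    exact same_sign hp e he hflat (by decide) h0 (z := 5) (z' := z) (by decide +kernel)
      (by decide) (by decide) hz hz0 hz3
  have hall := allGood_all hp e he hflat ε (allGood_of_good hp e he hflat ε h0 hgood)
  have g : ∀ f x y z, Side T f x y → z ∈ T f → z ≠ x → z ≠ y → 0 < ε * Tr e p x y z :=
    fun f x y z h hz hzx hzy => hall f x y h z hz hzx hzy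
  have g01 := g 0 3 5 0 (by decide +kernel) (by decide +kernel) (by decide) (by decide)
  have g02 := g 0 5 1 0 (by decide +kernel) (by decide +kernel) (by decide) (by decide)
  have g11 := g 1 1 7 0 (by decide +kernel) (by decide +kernel) (by decide) (by decide)
  have g12 := g 1 7 4 0 (by decide +kernel) (by decide +kernel) (by decide) (by decide)
  have g21 := g 2 4 8 0 (by decide +kernel) (by decide +kernel) (by decide) (by decide)
  have g22 := g 2 8 2 0 (by decide +kernel) (by decide +kernel) (by decide) (by decide)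
  have g31 := g 3 2 6 0 (by decide +kernel) (by decide +kernel) (by decide) (by decide)
  have g32 := g 3 6 3 0 (by decide +kernel) (by decide +kernel) (by decide) (by decide)
  have g41 := g 4 2 8 6 (by decide +kernel) (by decide +kernel) (by decide) (by decide)
  have g42 := g 4 8 7 6 (by decide +kernel) (by decide +kernel) (by decide) (by decide)
  have g43 := g 4 7 1 6 (by decide +kernel) (by decide +kernel) (by decide) (by decide)
  have g44 := g 4 1 5 6 (by decide +kernel) (by decide +kernel) (by decide) (by decide)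
  have g51 := g 5 4 9 3 (by decide +kernel) (by decide +kernel) (by decide) (by decide)
  have g52 := g 5 9 5 3 (by decide +kernel) (by decide +kernel) (by decide) (by decide)
  have g61 := g 6 7 9 4 (by decide +kernel) (by decide +kernel) (by decide) (by decide)
  have g71 := g 7 9 10 5 (by decide +kernel) (by decide +kernel) (by decide) (by decide)
  have g72 := g 7 10 6 5 (by decide +kernel) (by decide +kernel) (by decide) (by decide)
  have g81 := g 8 8 10 7 (by decide +kernel) (by decide +kernel) (by decide) (by decide)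
  have g82 := g 8 10 9 7 (by decide +kernel) (by decide +kernel) (by decide) (by decide)
  have g91 := g 9 10 3 6 (by decide +kernel) (by decide +kernel) (by decide) (by decide)
  have g101 := g 10 10 8 3 (by decide +kernel) (by decide +kernel) (by decide) (by decide)
  have g102 := g 10 8 4 3 (by decide +kernel) (by decide +kernel) (by decide) (by decide)
  have sum0 : Tr e p 3 5 0 + Tr e p 5 1 0 + Tr e p 1 7 0 + Tr e p 7 4 0 + Tr e p 4 8 0
    + Tr e p 8 2 0 + Tr e p 2 6 0 + Tr e p 6 3 0 + Tr e p 2 8 6 + Tr e p 8 7 6 + Tr e p 7 1 6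
    + Tr e p 1 5 6 + Tr e p 4 9 3 + Tr e p 9 5 3 + Tr e p 7 9 4 + Tr e p 9 10 5 + Tr e p 10 6 5
    + Tr e p 8 10 7 + Tr e p 10 9 7 + Tr e p 10 3 6 + Tr e p 10 8 3 + Tr e p 8 4 3 = 0 := by
    simp only [Tr, D, PiLp.sub_apply]; ring
  have : ε * (Tr e p 3 5 0 + Tr e p 5 1 0 + Tr e p 1 7 0 + Tr e p 7 4 0 + Tr e p 4 8 0
    + Tr e p 8 2 0 + Tr e p 2 6 0 + Tr e p 6 3 0 + Tr e p 2 8 6 + Tr e p 8 7 6 + Tr e p 7 1 6
    + Tr e p 1 5 6 + Tr e p 4 9 3 + Tr e p 9 5 3 + Tr e p 7 9 4 + Tr e p 9 10 5 + Tr e p 10 6 5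
    + Tr e p 8 10 7 + Tr e p 10 9 7 + Tr e p 10 3 6 + Tr e p 10 8 3 + Tr e p 8 4 3) = 0 := by
    rw [sum0, mul_zero]
  nlinarith

end flat

/-! ### The section of a face by a plane cutting off one of its vertices -/

/-- the point of the segment from `v` to `x` at which `h` vanishes -/
noncomputable def cut (h : E3 →ᵃ[ℝ] ℝ) (v x : E3) : E3 := v + (-h v / (h x - h v)) • (x - v)

theorem cut_eval (h φ : E3 →ᵃ[ℝ] ℝ) (v x : E3) :
    φ (cut h v x) = φ v + (-h v / (h x - h v)) * (φ x - φ v) := by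
  have e1 : φ (cut h v x) = φ v + φ.linear (cut h v x - v) := by rw [← aff_sub]; ring
  rw [e1, cut, add_sub_cancel_left, map_smul, ← aff_sub, smul_eq_mul]

theorem cut_zero (h : E3 →ᵃ[ℝ] ℝ) (v x : E3) (hv : h v < 0) (hx : 0 < h x) :
    h (cut h v x) = 0 := by
  rw [cut_eval]
  have : h x - h v ≠ 0 := by linarith
  field_simp; ring

theorem cut_mem (h : E3 →ᵃ[ℝ] ℝ) (v x : E3) (hv : h v < 0) (hx : 0 < h x) (S : Set E3)
    (hS : Convex ℝ S) (hvS : v ∈ S) (hxS : x ∈ S) : cut h v x ∈ S := by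
  have hd : 0 < h x - h v := by linarith
  refine hS.add_smul_sub_mem hvS hxS ⟨by have : 0 < -h v := by linarith
                                         positivity, ?_⟩
  rw [div_le_one hd]; linarith

theorem section_face (S : Set E3) (hS : Convex ℝ S) (v x x' y : E3) (hv : v ∈ S) (hx : x ∈ S)
    (hx' : x' ∈ S) (φ0 φ1 φ2 h : E3 →ᵃ[ℝ] ℝ) (h0 : ∀ z ∈ S, φ0 z = 0) (h1 : ∀ z ∈ S, 0 ≤ φ1 z)
    (h2 : ∀ z ∈ S, 0 ≤ φ2 z) (v1 : φ1 v = 0) (v2 : φ2 v = 0) (x1 : 0 < φ1 x) (x2 : φ2 x = 0)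
    (x1' : φ1 x' = 0) (x2' : 0 < φ2 x') (y0 : φ0 y ≠ 0) (hhv : h v < 0) (hhx : 0 < h x)
    (hhx' : 0 < h x') :
    {z | h z = 0} ∩ S = segment ℝ (cut h v x) (cut h v x') := by
  have v0 := h0 v hv
  apply Set.Subset.antisymm
  · rintro z ⟨hz0, hzS⟩
    -- the three functionals have trivial common kernel
    let L : E3 →ₗ[ℝ] (Fin 3 → ℝ) := LinearMap.pi ![φ0.linear, φ1.linear, φ2.linear]
    have hL : Function.Injective L := by
      have hfr : Module.finrank ℝ E3 = Module.finrank ℝ (Fin 3 → ℝ) := by simp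
      rw [LinearMap.injective_iff_surjective_of_finrank_eq_finrank hfr]
      intro r
      have a0 : φ0.linear (x - v) = 0 := by rw [← aff_sub, v0, h0 x hx, sub_zero]
      have a1 : φ1.linear (x - v) = φ1 x := by rw [← aff_sub, v1, sub_zero]
      have a2 : φ2.linear (x - v) = 0 := by rw [← aff_sub, v2, x2, sub_zero]
      have b0 : φ0.linear (x' - v) = 0 := by rw [← aff_sub, v0, h0 x' hx', sub_zero]
      have b1 : φ1.linear (x' - v) = 0 := by rw [← aff_sub, v1, x1', sub_zero]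
      have b2 : φ2.linear (x' - v) = φ2 x' := by rw [← aff_sub, v2, sub_zero]
      have c0 : φ0.linear (y - v) = φ0 y := by rw [← aff_sub, v0, sub_zero]
      have c1 : φ1.linear (y - v) = φ1 y := by rw [← aff_sub, v1, sub_zero]
      have c2 : φ2.linear (y - v) = φ2 y := by rw [← aff_sub, v2, sub_zero]
      refine ⟨((r 1 - r 0 / φ0 y * φ1 y) / φ1 x) • (x - v)
        + ((r 2 - r 0 / φ0 y * φ2 y) / φ2 x') • (x' - v) + (r 0 / φ0 y) • (y - v), ?_⟩
      have x1n := x1.ne'
      have x2n := x2'.ne'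
      ext i
      fin_cases i
      · simp only [L, LinearMap.pi_apply, Fin.zero_eta, Matrix.cons_val_zero, map_add, map_smul,
          a0, b0, c0, smul_eq_mul]
        field_simp; ring
      · simp only [L, LinearMap.pi_apply, Fin.mk_one, Matrix.cons_val_one, map_add, map_smul,
          a1, b1, c1, smul_eq_mul, Matrix.cons_val_zero]
        field_simp; ring
      · simp only [L, LinearMap.pi_apply, Fin.reduceFinMk, Matrix.cons_val, map_add, map_smul,
          a2, b2, c2, smul_eq_mul]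
        field_simp; ring
    have hzv : z = v + (φ1 z / φ1 x) • (x - v) + (φ2 z / φ2 x') • (x' - v) := by
      have hker : L (z - v - (φ1 z / φ1 x) • (x - v) - (φ2 z / φ2 x') • (x' - v)) = 0 := by
        have x1n := x1.ne'
        have x2n := x2'.ne'
        ext i
        fin_cases i
        · simp only [L, LinearMap.pi_apply, Fin.zero_eta, Matrix.cons_val_zero, map_sub, map_smul,
            smul_eq_mul, Pi.zero_apply]
          simp only [← map_sub, ← aff_sub, v0, h0 x hx, h0 x' hx', h0 z hzS]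
          simp
        · simp only [L, LinearMap.pi_apply, Fin.mk_one, Matrix.cons_val_one, map_sub, map_smul,
            smul_eq_mul, Pi.zero_apply, Matrix.cons_val_zero]
          simp only [← map_sub, ← aff_sub, v1, x1']
          field_simp; ring
        · simp only [L, LinearMap.pi_apply, Fin.reduceFinMk, Matrix.cons_val, map_sub, map_smul,
            smul_eq_mul, Pi.zero_apply]
          simp only [← map_sub, ← aff_sub, v2, x2]
          field_simp; ring
      have := hL (hker.trans (map_zero L).symm)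
      have e : z = v + (φ1 z / φ1 x) • (x - v) + (φ2 z / φ2 x') • (x' - v)
        + (z - v - (φ1 z / φ1 x) • (x - v) - (φ2 z / φ2 x') • (x' - v)) := by abel
      rw [this, add_zero] at e
      exact e
    set α := φ1 z / φ1 x with hα
    set β := φ2 z / φ2 x' with hβ
    have hα0 : 0 ≤ α := div_nonneg (h1 z hzS) x1.le
    have hβ0 : 0 ≤ β := div_nonneg (h2 z hzS) x2'.le
    have hz1 : h v + α * (h x - h v) + β * (h x' - h v) = 0 := by
      have e1 : h z = h v + h.linear (z - v) := by rw [← aff_sub]; ring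
      have e2 : z - v = α • (x - v) + β • (x' - v) := by
        conv_lhs => rw [hzv]
        module
      have hz0' : h z = 0 := hz0
      rw [e1, e2, map_add, map_smul, map_smul, ← aff_sub, ← aff_sub] at hz0'
      simpa [add_assoc] using hz0'
    have hd : 0 < h x - h v := by linarith
    have hd' : 0 < h x' - h v := by linarith
    have hvn : 0 < -h v := by linarith
    refine ⟨α * (h x - h v) / (-h v), β * (h x' - h v) / (-h v), by positivity, by positivity, ?_, ?_⟩
    · rw [← add_div, div_eq_one_iff_eq hvn.ne']; linarith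
    · have hsum : α * (h x - h v) / (-h v) + β * (h x' - h v) / (-h v) = 1 := by
        rw [← add_div, div_eq_one_iff_eq hvn.ne']; linarith
      have s1 : α * (h x - h v) / (-h v) * (-h v / (h x - h v)) = α := by
        have h1' := hd.ne'
        have h2' := hhv.ne
        field_simp
      have s2 : β * (h x' - h v) / (-h v) * (-h v / (h x' - h v)) = β := by
        have h1' := hd'.ne'
        have h2' := hhv.ne
        field_simp
      rw [cut, cut, smul_add, smul_add, smul_smul, smul_smul, s1, s2]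
      have e3 : (α * (h x - h v) / -h v) • v + (β * (h x' - h v) / -h v) • v = v := by
        rw [← add_smul, hsum, one_smul]
      calc (α * (h x - h v) / -h v) • v + α • (x - v) + ((β * (h x' - h v) / -h v) • v
            + β • (x' - v))
          = ((α * (h x - h v) / -h v) • v + (β * (h x' - h v) / -h v) • v)
            + α • (x - v) + β • (x' - v) := by abel
        _ = z := by rw [e3]; exact hzv.symm
  · have c1 : cut h v x ∈ {z | h z = 0} ∩ S :=
      ⟨cut_zero h v x hhv hhx, cut_mem h v x hhv hhx S hS hv hx⟩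
    have c2 : cut h v x' ∈ {z | h z = 0} ∩ S :=
      ⟨cut_zero h v x' hhv hhx', cut_mem h v x' hhv hhx' S hS hv hx'⟩
    have hconv : Convex ℝ ({z | h z = 0} ∩ S) := by
      refine Convex.inter ?_ hS
      exact (convex_singleton (0 : ℝ)).affine_preimage h
    exact hconv.segment_subset c1 c2


/-! ### The vertex `0` of `T` is convex in every realization -/

section apex
variable {p : Fin 11 → E3} (hp : IsRealization T p)
include hp

/-- a functional vanishing at the ends of a side of a face and at a further vertex of it vanishes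
at all vertices of the face -/
theorem ext_zero {f x1 x2 x x' : Fin 11} (hs : Side T f x1 x2) (hx : x ∈ T f) (hx1 : x ≠ x1)
    (hx2 : x ≠ x2) (hx' : x' ∈ T f) (φ : E3 →ᵃ[ℝ] ℝ) (h1 : φ (p x1) = 0) (h2 : φ (p x2) = 0)
    (h3 : φ (p x) = 0) : φ (p x') = 0 := by
  obtain ⟨e, he, heq⟩ := plane_functional hp f
  obtain ⟨k, k1, k2, k3⟩ := side_functional hp hs
  obtain ⟨m1, m2, m3⟩ := T_side_mem f x1 x2 hs
  have := prop_lemma e φ k he (p x1) (p x2) (p x) (p x') (hp.injective.ne m3) (heq _ m1)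
    (heq _ m2) (heq _ hx) (heq _ hx') h1 h2 k1 k2
  rw [h3, zero_mul] at this
  exact (mul_eq_zero.mp this).resolve_right (k3 x hx hx1 hx2).ne'

theorem ext_pos {f x1 x2 x x' : Fin 11} (hs : Side T f x1 x2) (hx : x ∈ T f) (hx1 : x ≠ x1)
    (hx2 : x ≠ x2) (hx' : x' ∈ T f) (hx1' : x' ≠ x1) (hx2' : x' ≠ x2) (φ : E3 →ᵃ[ℝ] ℝ)
    (h1 : φ (p x1) = 0) (h2 : φ (p x2) = 0) (h3 : 0 < φ (p x)) : 0 < φ (p x') := by
  obtain ⟨e, he, heq⟩ := plane_functional hp f
  obtain ⟨k, k1, k2, k3⟩ := side_functional hp hs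
  obtain ⟨m1, m2, m3⟩ := T_side_mem f x1 x2 hs
  have := prop_lemma e φ k he (p x1) (p x2) (p x) (p x') (hp.injective.ne m3) (heq _ m1)
    (heq _ m2) (heq _ hx) (heq _ hx') h1 h2 k1 k2
  have a := k3 x hx hx1 hx2
  have b := k3 x' hx' hx1' hx2'
  have c : 0 < φ (p x') * k (p x) := by rw [this]; exact mul_pos h3 b
  exact (mul_pos_iff_of_pos_right a).mp c

/-- the apex is not in the plane of the hexagonal face -/
theorem apex_off (e : E3 →ᵃ[ℝ] ℝ) (he : e.linear ≠ 0) (h4 : ∀ z ∈ T 4, e (p z) = 0) :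
    e (p 0) ≠ 0 := by
  intro h0
  have e1 : e (p 1) = 0 := h4 1 (by decide +kernel)
  have e2 : e (p 2) = 0 := h4 2 (by decide +kernel)
  have e5 : e (p 5) = 0 := h4 5 (by decide +kernel)
  have e6 : e (p 6) = 0 := h4 6 (by decide +kernel)
  have e7 : e (p 7) = 0 := h4 7 (by decide +kernel)
  have e8 : e (p 8) = 0 := h4 8 (by decide +kernel)
  have e3 : e (p 3) = 0 := ext_zero hp (f := 0) (x1 := 1) (x2 := 0) (x := 5) (by decide +kernel)
    (by decide +kernel) (by decide) (by decide) (by decide +kernel) e e1 h0 e5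
  have e4 : e (p 4) = 0 := ext_zero hp (f := 1) (x1 := 0) (x2 := 1) (x := 7) (by decide +kernel)
    (by decide +kernel) (by decide) (by decide) (by decide +kernel) e h0 e1 e7
  have e9 : e (p 9) = 0 := ext_zero hp (f := 5) (x1 := 3) (x2 := 4) (x := 5) (by decide +kernel)
    (by decide +kernel) (by decide) (by decide) (by decide +kernel) e e3 e4 e5
  have e10 : e (p 10) = 0 := ext_zero hp (f := 10) (x1 := 4) (x2 := 3) (x := 8)
    (by decide +kernel) (by decide +kernel) (by decide) (by decide) (by decide +kernel) e e4 e3 e8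
  refine not_flat hp e he ?_
  intro x
  fin_cases x <;> assumption

/-- supporting planes at the apex -/
theorem apex_functional {x y : Fin 11} (hs : Side T 4 x y) :
    ∃ φ : E3 →ᵃ[ℝ] ℝ, φ (p 0) = 0 ∧ φ (p x) = 0 ∧ φ (p y) = 0 ∧
      ∀ z ∈ T 4, z ≠ x → z ≠ y → 0 < φ (p z) := by
  obtain ⟨e, he, heq⟩ := plane_functional hp 4
  obtain ⟨k, k1, k2, k3⟩ := side_functional hp hs
  have h0 := apex_off hp e he heq
  obtain ⟨m1, m2, -⟩ := T_side_mem 4 x y hs
  refine ⟨k - (k (p 0) / e (p 0)) • e, ?_, ?_, ?_, ?_⟩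
  · simp [h0]
  · simp [k1, heq x m1]
  · simp [k2, heq y m2]
  · intro z hz hzx hzy
    simpa [heq z hz] using k3 z hz hzx hzy

theorem apex_convex : IsConvexVertex T p 0 := by
  obtain ⟨φ1, a0, a1, a5, aG⟩ := apex_functional hp (x := 1) (y := 5) (by decide +kernel)
  obtain ⟨φ2, b0, b7, b1, bG⟩ := apex_functional hp (x := 7) (y := 1) (by decide +kernel)
  obtain ⟨φ3, c0, c2, c8, cG⟩ := apex_functional hp (x := 2) (y := 8) (by decide +kernel)
  obtain ⟨φ4, d0, d6, d2, dG⟩ := apex_functional hp (x := 6) (y := 2) (by decide +kernel)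
  have a2 := aG 2 (by decide +kernel) (by decide) (by decide)
  have a6 := aG 6 (by decide +kernel) (by decide) (by decide)
  have a7 := aG 7 (by decide +kernel) (by decide) (by decide)
  have a8 := aG 8 (by decide +kernel) (by decide) (by decide)
  have b2 := bG 2 (by decide +kernel) (by decide) (by decide)
  have b5 := bG 5 (by decide +kernel) (by decide) (by decide)
  have b6 := bG 6 (by decide +kernel) (by decide) (by decide)
  have b8 := bG 8 (by decide +kernel) (by decide) (by decide)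
  have c1 := cG 1 (by decide +kernel) (by decide) (by decide)
  have c5 := cG 5 (by decide +kernel) (by decide) (by decide)
  have c6 := cG 6 (by decide +kernel) (by decide) (by decide)
  have c7 := cG 7 (by decide +kernel) (by decide) (by decide)
  have d1 := dG 1 (by decide +kernel) (by decide) (by decide)
  have d5 := dG 5 (by decide +kernel) (by decide) (by decide)
  have d7 := dG 7 (by decide +kernel) (by decide) (by decide)
  have d8 := dG 8 (by decide +kernel) (by decide) (by decide)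
  have a3 : φ1 (p 3) = 0 := ext_zero hp (f := 0) (x1 := 1) (x2 := 0) (x := 5) (by decide +kernel)
    (by decide +kernel) (by decide) (by decide) (by decide +kernel) φ1 a1 a0 a5
  have a4 : 0 < φ1 (p 4) := ext_pos hp (f := 1) (x1 := 0) (x2 := 1) (x := 7) (by decide +kernel)
    (by decide +kernel) (by decide) (by decide) (by decide +kernel) (by decide) (by decide)
    φ1 a0 a1 a7
  have b4 : φ2 (p 4) = 0 := ext_zero hp (f := 1) (x1 := 0) (x2 := 1) (x := 7) (by decide +kernel)
    (by decide +kernel) (by decide) (by decide) (by decide +kernel) φ2 b0 b1 b7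
  have b3 : 0 < φ2 (p 3) := ext_pos hp (f := 0) (x1 := 1) (x2 := 0) (x := 5) (by decide +kernel)
    (by decide +kernel) (by decide) (by decide) (by decide +kernel) (by decide) (by decide)
    φ2 b1 b0 b5
  have c4 : φ3 (p 4) = 0 := ext_zero hp (f := 2) (x1 := 2) (x2 := 0) (x := 8) (by decide +kernel)
    (by decide +kernel) (by decide) (by decide) (by decide +kernel) φ3 c2 c0 c8
  have c3 : 0 < φ3 (p 3) := ext_pos hp (f := 3) (x1 := 0) (x2 := 2) (x := 6) (by decide +kernel)
    (by decide +kernel) (by decide) (by decide) (by decide +kernel) (by decide) (by decide)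
    φ3 c0 c2 c6
  have d3 : φ4 (p 3) = 0 := ext_zero hp (f := 3) (x1 := 0) (x2 := 2) (x := 6) (by decide +kernel)
    (by decide +kernel) (by decide) (by decide) (by decide +kernel) φ4 d0 d2 d6
  have d4 : 0 < φ4 (p 4) := ext_pos hp (f := 2) (x1 := 2) (x2 := 0) (x := 8) (by decide +kernel)
    (by decide +kernel) (by decide) (by decide) (by decide +kernel) (by decide) (by decide)
    φ4 d2 d0 d8
  have nb : ∀ y, Adj T 0 y → y = 1 ∨ y = 2 ∨ y = 3 ∨ y = 4 := by decide +kernel
  constructor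
  · -- a separating plane
    set Φ : E3 →ᵃ[ℝ] ℝ := φ1 + φ2 + φ3 + φ4 with hΦ
    have Φ0 : Φ (p 0) = 0 := by simp [hΦ, a0, b0, c0, d0]
    have Φ1 : 0 < Φ (p 1) := by simp only [hΦ, AffineMap.coe_add, Pi.add_apply]; linarith
    have Φ2 : 0 < Φ (p 2) := by simp only [hΦ, AffineMap.coe_add, Pi.add_apply]; linarith
    have Φ3 : 0 < Φ (p 3) := by simp only [hΦ, AffineMap.coe_add, Pi.add_apply]; linarith
    have Φ4 : 0 < Φ (p 4) := by simp only [hΦ, AffineMap.coe_add, Pi.add_apply]; linarith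
    set δ := min (min (Φ (p 1)) (Φ (p 2))) (min (Φ (p 3)) (Φ (p 4))) with hδ
    have hδ0 : 0 < δ := by simp [hδ, Φ1, Φ2, Φ3, Φ4]
    have k1 : δ ≤ Φ (p 1) := (min_le_left _ _).trans (min_le_left _ _)
    have k2 : δ ≤ Φ (p 2) := (min_le_left _ _).trans (min_le_right _ _)
    have k3 : δ ≤ Φ (p 3) := (min_le_right _ _).trans (min_le_left _ _)
    have k4 : δ ≤ Φ (p 4) := (min_le_right _ _).trans (min_le_right _ _)
    refine ⟨Φ - AffineMap.const ℝ E3 (δ / 2), ?_, ?_⟩
    · simp [Φ0]; linarith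
    · intro y hy
      rcases nb y hy with rfl | rfl | rfl | rfl
      all_goals
        simp only [AffineMap.coe_sub, Pi.sub_apply, AffineMap.const_apply]
        linarith
  · rintro h ⟨h0, hnb⟩
    have h1 : 0 < h (p 1) := hnb 1 (by decide +kernel)
    have h2 : 0 < h (p 2) := hnb 2 (by decide +kernel)
    have h3 : 0 < h (p 3) := hnb 3 (by decide +kernel)
    have h4 : 0 < h (p 4) := hnb 4 (by decide +kernel)
    -- scaling factors
    have sc : ∀ x, 0 < h x → 0 < -h (p 0) / (h x - h (p 0)) := fun x hx =>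
      div_pos (by linarith) (by linarith)
    have cutz : ∀ (φ : E3 →ᵃ[ℝ] ℝ) (x : E3), φ (p 0) = 0 → φ x = 0 → φ (cut h (p 0) x) = 0 := by
      intro φ x hφ0 hφx
      rw [cut_eval, hφ0, hφx]; simp
    have cutp : ∀ (φ : E3 →ᵃ[ℝ] ℝ) (x : E3), φ (p 0) = 0 → 0 < h x → 0 < φ x →
        0 < φ (cut h (p 0) x) := by
      intro φ x hφ0 hx hφx
      rw [cut_eval, hφ0, zero_add, sub_zero]
      exact mul_pos (sc x hx) hφx
    -- the vertices of the vertex figure
    set q1 := cut h (p 0) (p 1) with hq1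
    set q2 := cut h (p 0) (p 2) with hq2
    set q3 := cut h (p 0) (p 3) with hq3
    set q4 := cut h (p 0) (p 4) with hq4
    have A1 : φ1 q1 = 0 := cutz φ1 _ a0 a1
    have A3 : φ1 q3 = 0 := cutz φ1 _ a0 a3
    have A2 : 0 < φ1 q2 := cutp φ1 _ a0 h2 a2
    have A4 : 0 < φ1 q4 := cutp φ1 _ a0 h4 a4
    have B1 : φ2 q1 = 0 := cutz φ2 _ b0 b1
    have B4 : φ2 q4 = 0 := cutz φ2 _ b0 b4
    have B2 : 0 < φ2 q2 := cutp φ2 _ b0 h2 b2
    have B3 : 0 < φ2 q3 := cutp φ2 _ b0 h3 b3
    have C2 : φ3 q2 = 0 := cutz φ3 _ c0 c2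
    have C4 : φ3 q4 = 0 := cutz φ3 _ c0 c4
    have C1 : 0 < φ3 q1 := cutp φ3 _ c0 h1 c1
    have C3 : 0 < φ3 q3 := cutp φ3 _ c0 h3 c3
    have D2 : φ4 q2 = 0 := cutz φ4 _ d0 d2
    have D3 : φ4 q3 = 0 := cutz φ4 _ d0 d3
    have D1 : 0 < φ4 q1 := cutp φ4 _ d0 h1 d1
    have D4 : 0 < φ4 q4 := cutp φ4 _ d0 h4 d4
    have n31 : q3 ≠ q1 := fun h => by rw [h, B1] at B3; exact lt_irrefl _ B3
    have n34 : q3 ≠ q4 := fun h => by rw [h] at A3; rw [A3] at A4; exact lt_irrefl _ A4
    have n32 : q3 ≠ q2 := fun h => by rw [h, C2] at C3; exact lt_irrefl _ C3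
    have n14 : q1 ≠ q4 := fun h => by rw [h, C4] at C1; exact lt_irrefl _ C1
    have n12 : q1 ≠ q2 := fun h => by rw [h] at A1; rw [A1] at A2; exact lt_irrefl _ A2
    have n42 : q4 ≠ q2 := fun h => by rw [h, D2] at D4; exact lt_irrefl _ D4
    have hsides : sides [q3, q1, q4, q2] = [(q3, q1), (q1, q4), (q4, q2), (q2, q3)] := rfl
    refine ⟨[q3, q1, q4, q2], ⟨by simp, ?_, ?_, ?_⟩, ?_⟩
    · simp [n31, n34, n32, n14, n12, n42]
    · refine ⟨h, ?_, ?_⟩
      · intro hl
        have := aff_sub h (p 0) (p 1)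
        rw [hl] at this
        simp at this
        linarith
      · intro x hx
        simp only [List.mem_cons, List.not_mem_nil, or_false] at hx
        rcases hx with rfl | rfl | rfl | rfl
        · exact cut_zero h _ _ h0 h3
        · exact cut_zero h _ _ h0 h1
        · exact cut_zero h _ _ h0 h4
        · exact cut_zero h _ _ h0 h2
    · rw [hsides]
      intro s hs
      simp only [List.mem_cons, List.not_mem_nil, or_false] at hs
      rcases hs with rfl | rfl | rfl | rfl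
      · refine ⟨φ1, A3, A1, ?_⟩
        intro x hx hx1 hx2
        simp only [List.mem_cons, List.not_mem_nil, or_false] at hx
        rcases hx with rfl | rfl | rfl | rfl
        · exact absurd rfl hx1
        · exact absurd rfl hx2
        · exact A4
        · exact A2
      · refine ⟨φ2, B1, B4, ?_⟩
        intro x hx hx1 hx2
        simp only [List.mem_cons, List.not_mem_nil, or_false] at hx
        rcases hx with rfl | rfl | rfl | rfl
        · exact B3
        · exact absurd rfl hx1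
        · exact absurd rfl hx2
        · exact B2
      · refine ⟨φ3, C4, C2, ?_⟩
        intro x hx hx1 hx2
        simp only [List.mem_cons, List.not_mem_nil, or_false] at hx
        rcases hx with rfl | rfl | rfl | rfl
        · exact C3
        · exact C1
        · exact absurd rfl hx1
        · exact absurd rfl hx2
      · refine ⟨φ4, D2, D3, ?_⟩
        intro x hx hx1 hx2
        simp only [List.mem_cons, List.not_mem_nil, or_false] at hx
        rcases hx with rfl | rfl | rfl | rfl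
        · exact absurd rfl hx2
        · exact D1
        · exact D4
        · exact absurd rfl hx1
    · -- the vertex figure is the union of the four sides
      have faces0 : ∀ f, 0 ∈ T f ↔ f = 0 ∨ f = 1 ∨ f = 2 ∨ f = 3 := by decide +kernel
      have hz0 : ∀ (f : Fin 11) (φ : E3 →ᵃ[ℝ] ℝ), (∀ i ∈ T f, φ (p i) = 0) →
          ∀ z ∈ face T p f, φ z = 0 := by
        intro f φ hφ z hz
        have u1 := nonneg_on_hull p {x | x ∈ T f} φ (fun i hi => (hφ i hi).ge) z hz
        have u2 := nonneg_on_hull p {x | x ∈ T f} (-φ) (fun i hi => by simp [hφ i hi]) z hz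
        simp only [AffineMap.coe_neg, Pi.neg_apply] at u2
        linarith
      have hzn : ∀ (f : Fin 11) (φ : E3 →ᵃ[ℝ] ℝ), (∀ i ∈ T f, 0 ≤ φ (p i)) →
          ∀ z ∈ face T p f, 0 ≤ φ z := fun f φ hφ z hz =>
        nonneg_on_hull p {x | x ∈ T f} φ hφ z hz
      have inF : ∀ (f i : Fin 11), i ∈ T f → p i ∈ face T p f := fun f i hi =>
        subset_convexHull ℝ _ ⟨i, hi, rfl⟩
      have T0 : T 0 = [0,3,5,1] := by decide +kernel
      have T1 : T 1 = [0,1,7,4] := by decide +kernel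
      have T2 : T 2 = [0,4,8,2] := by decide +kernel
      have T3 : T 3 = [0,2,6,3] := by decide +kernel
      have f0 : {z | h z = 0} ∩ face T p 0 = segment ℝ q3 q1 := by
        refine section_face (face T p 0) (convex_convexHull ℝ _) (p 0) (p 3) (p 1) (p 4)
          (inF 0 0 (by decide +kernel)) (inF 0 3 (by decide +kernel)) (inF 0 1 (by decide +kernel))
          φ1 φ2 φ4 h (hz0 0 φ1 ?_) (hzn 0 φ2 ?_) (hzn 0 φ4 ?_) b0 d0 b3 d3 b1 d1 a4.ne' h0 h3 h1
        all_goals
          rw [T0]; intro i hi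
          simp only [List.mem_cons, List.not_mem_nil, or_false] at hi
          rcases hi with rfl | rfl | rfl | rfl
          all_goals first | assumption | (apply le_of_lt; assumption) | (apply ge_of_eq; assumption)
      have f1 : {z | h z = 0} ∩ face T p 1 = segment ℝ q1 q4 := by
        refine section_face (face T p 1) (convex_convexHull ℝ _) (p 0) (p 1) (p 4) (p 2)
          (inF 1 0 (by decide +kernel)) (inF 1 1 (by decide +kernel)) (inF 1 4 (by decide +kernel))
          φ2 φ3 φ1 h (hz0 1 φ2 ?_) (hzn 1 φ3 ?_) (hzn 1 φ1 ?_) c0 a0 c1 a1 c4 a4 b2.ne' h0 h1 h4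
        all_goals
          rw [T1]; intro i hi
          simp only [List.mem_cons, List.not_mem_nil, or_false] at hi
          rcases hi with rfl | rfl | rfl | rfl
          all_goals first | assumption | (apply le_of_lt; assumption) | (apply ge_of_eq; assumption)
      have f2 : {z | h z = 0} ∩ face T p 2 = segment ℝ q4 q2 := by
        refine section_face (face T p 2) (convex_convexHull ℝ _) (p 0) (p 4) (p 2) (p 1)
          (inF 2 0 (by decide +kernel)) (inF 2 4 (by decide +kernel)) (inF 2 2 (by decide +kernel))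
          φ3 φ4 φ2 h (hz0 2 φ3 ?_) (hzn 2 φ4 ?_) (hzn 2 φ2 ?_) d0 b0 d4 b4 d2 b2 c1.ne' h0 h4 h2
        all_goals
          rw [T2]; intro i hi
          simp only [List.mem_cons, List.not_mem_nil, or_false] at hi
          rcases hi with rfl | rfl | rfl | rfl
          all_goals first | assumption | (apply le_of_lt; assumption) | (apply ge_of_eq; assumption)
      have f3 : {z | h z = 0} ∩ face T p 3 = segment ℝ q2 q3 := by
        refine section_face (face T p 3) (convex_convexHull ℝ _) (p 0) (p 2) (p 3) (p 1)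
          (inF 3 0 (by decide +kernel)) (inF 3 2 (by decide +kernel)) (inF 3 3 (by decide +kernel))
          φ4 φ1 φ3 h (hz0 3 φ4 ?_) (hzn 3 φ1 ?_) (hzn 3 φ3 ?_) a0 c0 a2 c2 a3 c3 d1.ne' h0 h2 h3
        all_goals
          rw [T3]; intro i hi
          simp only [List.mem_cons, List.not_mem_nil, or_false] at hi
          rcases hi with rfl | rfl | rfl | rfl
          all_goals first | assumption | (apply le_of_lt; assumption) | (apply ge_of_eq; assumption)
      rw [hsides, vertexFigure]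
      ext z
      simp only [Set.mem_inter_iff, Set.mem_iUnion, Set.mem_ofPred_eq, exists_prop]
      constructor
      · rintro ⟨hz, f, hf, hzf⟩
        rcases (faces0 f).mp hf with rfl | rfl | rfl | rfl
        · exact ⟨(q3, q1), by simp, by rw [← f0]; exact ⟨hz, hzf⟩⟩
        · exact ⟨(q1, q4), by simp, by rw [← f1]; exact ⟨hz, hzf⟩⟩
        · exact ⟨(q4, q2), by simp, by rw [← f2]; exact ⟨hz, hzf⟩⟩
        · exact ⟨(q2, q3), by simp, by rw [← f3]; exact ⟨hz, hzf⟩⟩
      · rintro ⟨s, hs, hzs⟩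
        simp only [List.mem_cons, List.not_mem_nil, or_false] at hs
        rcases hs with rfl | rfl | rfl | rfl
        · have : z ∈ {z | h z = 0} ∩ face T p 0 := by rw [f0]; exact hzs
          exact ⟨this.1, 0, (faces0 0).mpr (by decide), this.2⟩
        · have : z ∈ {z | h z = 0} ∩ face T p 1 := by rw [f1]; exact hzs
          exact ⟨this.1, 1, (faces0 1).mpr (by decide), this.2⟩
        · have : z ∈ {z | h z = 0} ∩ face T p 2 := by rw [f2]; exact hzs
          exact ⟨this.1, 2, (faces0 2).mpr (by decide), this.2⟩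
        · have : z ∈ {z | h z = 0} ∩ face T p 3 := by rw [f3]; exact hzs
          exact ⟨this.1, 3, (faces0 3).mpr (by decide), this.2⟩

end apex

/-! ### Adjacent faces of the explicit realization are not coplanar -/

def det4 (a b c d : ℤ × ℤ × ℤ) : ℤ :=
  (b.1 - a.1) * ((c.2.1 - a.2.1) * (d.2.2 - a.2.2) - (c.2.2 - a.2.2) * (d.2.1 - a.2.1)) +
  (b.2.1 - a.2.1) * ((c.2.2 - a.2.2) * (d.1 - a.1) - (c.1 - a.1) * (d.2.2 - a.2.2)) +
  (b.2.2 - a.2.2) * ((c.1 - a.1) * (d.2.1 - a.2.1) - (c.2.1 - a.2.1) * (d.1 - a.1))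

theorem T_noncoplanar : ∀ f g x y, Side T f x y → Side T g y x →
    ∃ z ∈ T f, ∃ w ∈ T g, det4 (P x) (P y) (P z) (P w) ≠ 0 := by decide +kernel

theorem linear_zero_of_four (e : E3 →ᵃ[ℝ] ℝ) (a b c d : ℤ × ℤ × ℤ) (hdet : det4 a b c d ≠ 0)
    (ha : e (pt a) = 0) (hb : e (pt b) = 0) (hc : e (pt c) = 0) (hd : e (pt d) = 0) :
    e.linear = 0 := by
  have Eb : e.linear (pt b - pt a) = 0 := by rw [← aff_sub, ha, hb, sub_zero]
  have Ec : e.linear (pt c - pt a) = 0 := by rw [← aff_sub, ha, hc, sub_zero]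
  have Ed : e.linear (pt d - pt a) = 0 := by rw [← aff_sub, ha, hd, sub_zero]
  rw [lin_coord] at Eb Ec Ed
  simp [pt] at Eb Ec Ed
  have hdet' : (det4 a b c d : ℝ) ≠ 0 := by exact_mod_cast hdet
  have h0 : cf e.linear 0 = 0 := by
    have : cf e.linear 0 * (det4 a b c d : ℝ) = 0 := by
      simp only [det4]; push_cast
      linear_combination (((c.2.1:ℝ) - a.2.1) * (d.2.2 - a.2.2) - (c.2.2 - a.2.2) * (d.2.1 - a.2.1)) * Eb
        + (((d.2.1:ℝ) - a.2.1) * (b.2.2 - a.2.2) - (d.2.2 - a.2.2) * (b.2.1 - a.2.1)) * Ec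
        + (((b.2.1:ℝ) - a.2.1) * (c.2.2 - a.2.2) - (b.2.2 - a.2.2) * (c.2.1 - a.2.1)) * Ed
    exact (mul_eq_zero.mp this).resolve_right hdet'
  have h1 : cf e.linear 1 = 0 := by
    have : cf e.linear 1 * (det4 a b c d : ℝ) = 0 := by
      simp only [det4]; push_cast
      linear_combination (((c.2.2:ℝ) - a.2.2) * (d.1 - a.1) - (c.1 - a.1) * (d.2.2 - a.2.2)) * Eb
        + (((d.2.2:ℝ) - a.2.2) * (b.1 - a.1) - (d.1 - a.1) * (b.2.2 - a.2.2)) * Ec
        + (((b.2.2:ℝ) - a.2.2) * (c.1 - a.1) - (b.1 - a.1) * (c.2.2 - a.2.2)) * Ed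
    exact (mul_eq_zero.mp this).resolve_right hdet'
  have h2 : cf e.linear 2 = 0 := by
    have : cf e.linear 2 * (det4 a b c d : ℝ) = 0 := by
      simp only [det4]; push_cast
      linear_combination (((c.1:ℝ) - a.1) * (d.2.1 - a.2.1) - (c.2.1 - a.2.1) * (d.1 - a.1)) * Eb
        + (((d.1:ℝ) - a.1) * (b.2.1 - a.2.1) - (d.2.1 - a.2.1) * (b.1 - a.1)) * Ec
        + (((b.1:ℝ) - a.1) * (c.2.1 - a.2.1) - (b.2.1 - a.2.1) * (c.1 - a.1)) * Ed
    exact (mul_eq_zero.mp this).resolve_right hdet'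
  ext z
  rw [lin_coord, h0, h1, h2]; simp

theorem p0_noncoplanar : NoCoplanarNeighbours T p0 := by
  rintro f g x y h1 h2 ⟨e, he, hf, hg⟩
  obtain ⟨z, hz, w, hw, hdet⟩ := T_noncoplanar f g x y h1 h2
  obtain ⟨hx, hy, -⟩ := T_side_mem f x y h1
  exact he (linear_zero_of_four e _ _ _ _ hdet (hf x hx) (hf y hy) (hf z hz) (hg w hw))

/-- There is a combinatorial type of polyhedral manifold (a torus) such that every realization in
3-space has a convex vertex of valence at least 4. -/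
theorem result :
    ∃ (n m : ℕ) (K : Complex n m), IsPolyhedralMap K ∧
      -- genus one
      (n : ℤ) - numEdges K + m = 0 ∧
      -- the type is the type of a polyhedral manifold, even without coplanar adjacent faces
      (∃ p, IsRealization K p ∧ NoCoplanarNeighbours K p) ∧
      -- every realization has a convex vertex of valence at least four
      ∀ p, IsRealization K p → ∃ x, 4 ≤ valence K x ∧ IsConvexVertex K p x :=
  ⟨11, 11, T, T_polyhedral, by rw [T_edges]; norm_num, ⟨p0, T_realization, p0_noncoplanar⟩,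
    fun _ hp => ⟨0, by rw [T_valence], apex_convex hp⟩⟩

end Pool.Agent.Results.MP_ca7516_co.ForcedConvexVertexTorus
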